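import Pool.Agent.H.MP_e11395_an.D.StateA

/-!
# Extreme tracial states and the centre
-/

set_option autoImplicit false
set_option linter.unusedSectionVars false

open Filter Topology
open scoped ComplexOrder

namespace Pool.Agent.H.MP_e11395_an

variable {A : Type} [CStarAlgebra A]

/-- Positivity of `a ↦ τ (z a)`, `z = w⋆ w` central. -/
theorem state_aux1 {τ : A →ₗ[ℂ] ℂ} (h : IsTr τ) {z w : A} (hz : ∀ a, z * a = a * z)
    (hw : star w * w = z) (a : A) : 0 ≤ τ (z * (star a * a)) := by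
  have h1 : z * (star a * a) = star (w * a) * (w * a) := by
    calc z * (star a * a) = (z * star a) * a := by rw [mul_assoc]
      _ = (star a * z) * a := by rw [hz]
      _ = (star a * (star w * w)) * a := by rw [hw]
      _ = star (w * a) * (w * a) := by rw [star_mul]; simp only [mul_assoc]
  rw [h1]
  exact h.pos _

/-- The trace property of `a ↦ τ (z a)`, `z` central. -/
theorem state_aux2 {τ : A →ₗ[ℂ] ℂ} (h : IsTr τ) {z : A} (hz : ∀ a, z * a = a * z)
    (a b : A) : τ (z * (a * b)) = τ (z * (b * a)) := by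
  calc τ (z * (a * b)) = τ ((z * a) * b) := by rw [mul_assoc]
    _ = τ (b * (z * a)) := h.comm _ _
    _ = τ ((b * z) * a) := by rw [mul_assoc]
    _ = τ ((z * b) * a) := by rw [hz]
    _ = τ (z * (b * a)) := by rw [mul_assoc]

/-- The case `1 / 2 ≤ τ z`. -/
theorem state_aux3 {τ : A →ₗ[ℂ] ℂ} (h : IsExt τ) {z w v : A} (hz : ∀ a, z * a = a * z)
    (hw : star w * w = z) (hv : star v * v = 1 - z) (ht : 1 / 2 ≤ (τ z).re) (a : A) :
    τ (z * a) = τ z * τ a := by
  have hz' : ∀ a, (1 - z) * a = a * (1 - z) := fun a => by rw [sub_mul, mul_sub, hz, one_mul, mul_one]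
  obtain ⟨t, ht1⟩ : ∃ t : ℝ, τ z = t := by
    have h1 := h.pos w
    rw [hw] at h1
    refine ⟨(τ z).re, ?_⟩
    have h2 := (Complex.le_def.1 h1).2
    apply Complex.ext
    · simp
    · simpa using h2.symm
  rw [ht1, Complex.ofReal_re] at ht
  have ht0 : (0 : ℝ) < t := by linarith
  have htc : (t : ℂ) ≠ 0 := by exact_mod_cast ht0.ne'
  set τ₁ : A →ₗ[ℂ] ℂ := (1 / (t : ℂ)) • (τ ∘ₗ LinearMap.mulLeft ℂ z) with hτ₁
  have e1 : ∀ a, τ₁ a = (1 / (t : ℂ)) * τ (z * a) := fun a => rfl
  set τ₂ : A →ₗ[ℂ] ℂ := (2 : ℂ) • τ - τ₁ with hτ₂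
  have e2 : ∀ a, τ₂ a = 2 * τ a - (1 / (t : ℂ)) * τ (z * a) := fun a => rfl
  have i1 : IsTr τ₁ := by
    refine ⟨?_, fun a => ?_, fun a b => ?_⟩
    · rw [e1, mul_one, ht1]
      field_simp
    · rw [e1]
      refine mul_nonneg ?_ (state_aux1 h.toIsTr hz hw a)
      rw [one_div, ← Complex.ofReal_inv]
      exact Complex.zero_le_real.2 (by positivity)
    · rw [e1, e1, state_aux2 h.toIsTr hz]
  have i2 : IsTr τ₂ := by
    refine ⟨?_, fun a => ?_, fun a b => ?_⟩
    · rw [e2, mul_one, ht1, h.one]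
      field_simp
      norm_num
    · have h3 : τ₂ (star a * a) = ((2 - 1 / t : ℝ) : ℂ) * τ (star a * a) +
          ((1 / t : ℝ) : ℂ) * τ ((1 - z) * (star a * a)) := by
        rw [e2, sub_mul, one_mul, map_sub]
        push_cast
        ring
      rw [h3]
      refine add_nonneg (mul_nonneg ?_ (h.pos a))
        (mul_nonneg ?_ (state_aux1 h.toIsTr hz' hv a))
      · refine Complex.zero_le_real.2 ?_
        have : 1 / t ≤ 2 := by
          rw [div_le_iff₀ ht0]
          linarith
        linarith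
      · exact Complex.zero_le_real.2 (by positivity)
    · rw [e2, e2, state_aux2 h.toIsTr hz, h.comm]
  have h4 : τ₁ = τ := by
    refine h.ext τ₁ τ₂ i1 i2 fun a => ?_
    rw [e2, e1]
    ring
  have h5 : τ₁ a = τ a := by rw [h4]
  rw [e1] at h5
  rw [ht1, ← h5]
  field_simp

/-- **The centre.** An extreme tracial state is multiplicative on central positive contractions:
for `0 < t = τ z < 1` it is the convex combination `t τ(z ·)/t + (1-t) τ((1-z) ·)/(1-t)`; if
`t ≤ 1/2`, write it as `((2t τ₁ + (1-2t) τ₂) + τ₂)/2`, which gives `τ₂ = τ`; similarly for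
`t ≥ 1/2`. For `t = 0`: `‖τ (z a)‖² ≤ τ z · τ (...) = 0` by Cauchy-Schwarz with `z = w⋆ w`. -/
theorem IsExt.center {τ : A →ₗ[ℂ] ℂ} (h : IsExt τ) {z w v : A} (hz : ∀ a, z * a = a * z)
    (hw : star w * w = z) (hv : star v * v = 1 - z) (a : A) : τ (z * a) = τ z * τ a := by
  rcases le_total (1 / 2) (τ z).re with ht | ht
  · exact state_aux3 h hz hw hv ht a
  · have hz' : ∀ a, (1 - z) * a = a * (1 - z) := fun a => by
      rw [sub_mul, mul_sub, hz, one_mul, mul_one]
    have h1 : τ (1 - z) = 1 - τ z := by rw [map_sub, h.one]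
    have h2 : 1 / 2 ≤ (τ (1 - z)).re := by
      rw [h1, Complex.sub_re, Complex.one_re]
      linarith
    have h3 := state_aux3 h hz' hv (by rw [hw]; simp) h2 a
    rw [h1, sub_mul, map_sub, one_mul] at h3
    linear_combination -h3

end Pool.Agent.H.MP_e11395_an
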