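import Pool.Agent.H.MP_e11395_an.Mt

/-!
# Tracial states, extreme tracial states, the normalised matrix trace: definitions
-/

set_option autoImplicit false
set_option linter.unusedSectionVars false

open Filter Topology
open scoped ComplexOrder

namespace Pool.Agent.H.MP_e11395_an

section defs

variable {A : Type} [Ring A] [StarRing A] [Algebra ℂ A]

/-- Tracial states. -/
structure IsTr (τ : A →ₗ[ℂ] ℂ) : Prop where
  one : τ 1 = 1
  pos : ∀ a, 0 ≤ τ (star a * a)
  comm : ∀ a b, τ (a * b) = τ (b * a)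

/-- Extreme tracial states. -/
structure IsExt (τ : A →ₗ[ℂ] ℂ) : Prop extends IsTr τ where
  ext : ∀ τ₁ τ₂ : A →ₗ[ℂ] ℂ, IsTr τ₁ → IsTr τ₂ → (∀ a, τ a = (τ₁ a + τ₂ a) / 2) → τ₁ = τ

/-- Composition with a unital *-homomorphism. -/
theorem IsTr.comp {B : Type} [Ring B] [StarRing B] [Algebra ℂ B] {τ : A →ₗ[ℂ] ℂ} (h : IsTr τ)
    (φ : B →⋆ₐ[ℂ] A) : IsTr (τ ∘ₗ (φ : B →ₐ[ℂ] A).toLinearMap) where
  one := by simp [h.one]
  pos a := by
    have := h.pos (φ a)
    rw [← map_star, ← map_mul] at this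
    exact this
  comm a b := by simpa using h.comm (φ a) (φ b)

end defs

section mtr

variable {ι B : Type} [Fintype ι] [DecidableEq ι] [CStarAlgebra B]

/-- The normalised trace of a matrix over `B`, with values in `B`. -/
noncomputable def mtr : Mt ι B →ₗ[ℂ] B where
  toFun M := (1 / (Fintype.card ι : ℂ)) • ∑ i, M i i
  map_add' M N := by simp [Finset.sum_add_distrib]
  map_smul' c M := by simp [← Finset.smul_sum, smul_comm c]

theorem mtr_apply (M : Mt ι B) : mtr M = (1 / (Fintype.card ι : ℂ)) • ∑ i, M i i := rfl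

/-- The diagonal matrix `b ⊗ 1`. -/
noncomputable def dia (ι : Type) [Fintype ι] [DecidableEq ι] {B : Type} [CStarAlgebra B] :
    B →⋆ₐ[ℂ] Mt ι B where
  toFun b := Mt.of fun i j => if i = j then b else 0
  map_one' := by ext i j; simp [Mt.one_apply]
  map_mul' a b := by
    ext i j
    simp only [Mt.mul_apply, Mt.of_apply]
    by_cases h : i = j <;> simp [h]
  map_zero' := by ext i j; simp
  map_add' a b := by ext i j; simp only [Mt.of_apply, Mt.add_apply]; split_ifs <;> simp
  commutes' c := by ext i j; simp [Mt.algebraMap_apply]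
  map_star' b := by
    ext i j
    simp only [Mt.of_apply, Mt.star_apply, eq_comm (a := j)]
    split_ifs <;> simp

theorem dia_apply (b : B) (i j : ι) : dia ι b i j = if i = j then b else 0 := rfl

theorem mtr_dia [Nonempty ι] (b : B) : mtr (dia ι b) = b := by
  have : (Fintype.card ι : ℂ) ≠ 0 := by simp
  rw [mtr_apply]
  simp [dia_apply, ← Nat.cast_smul_eq_nsmul ℂ, smul_smul, this]

theorem mtr_one [Nonempty ι] : mtr (1 : Mt ι B) = 1 := by
  rw [← map_one (dia ι : B →⋆ₐ[ℂ] Mt ι B), mtr_dia]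

theorem norm_mtr_le (M : Mt ι B) : ‖mtr M‖ ≤ ‖M‖ := by
  rw [mtr_apply, norm_smul]
  have h1 : ‖∑ i, M i i‖ ≤ (Fintype.card ι : ℝ) * ‖M‖ := by
    refine (norm_sum_le _ _).trans ?_
    refine (Finset.sum_le_sum fun i _ => Mt.norm_entry_le M i i).trans ?_
    simp
  have h2 : ‖(1 / (Fintype.card ι : ℂ))‖ = 1 / (Fintype.card ι : ℝ) := by simp
  rw [h2]
  rcases Nat.eq_zero_or_pos (Fintype.card ι) with h0 | h0
  · simp [h0]
  · have : (0 : ℝ) < Fintype.card ι := by exact_mod_cast h0
    calc 1 / (Fintype.card ι : ℝ) * ‖∑ i, M i i‖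
        ≤ 1 / (Fintype.card ι : ℝ) * ((Fintype.card ι : ℝ) * ‖M‖) :=
          mul_le_mul_of_nonneg_left h1 (by positivity)
      _ = ‖M‖ := by field_simp

/-- `mtr (M N) - mtr (N M)` is a combination of commutators. -/
theorem IsTr.mat [Nonempty ι] {σ : B →ₗ[ℂ] ℂ} (h : IsTr σ) :
    IsTr (σ ∘ₗ (mtr : Mt ι B →ₗ[ℂ] B)) where
  one := by simp [mtr_one, h.one]
  pos M := by
    have h1 : (σ ∘ₗ (mtr : Mt ι B →ₗ[ℂ] B)) (star M * M) =
        (1 / (Fintype.card ι : ℂ)) * ∑ i, ∑ k, σ (star (M k i) * M k i) := by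
      simp [mtr_apply, Mt.mul_apply]
    rw [h1]
    refine mul_nonneg ?_ (Finset.sum_nonneg fun i _ => Finset.sum_nonneg fun k _ => h.pos _)
    rw [one_div, ← Complex.ofReal_natCast, ← Complex.ofReal_inv]
    exact Complex.zero_le_real.2 (by positivity)
  comm M N := by
    simp only [mtr_apply, Mt.mul_apply, LinearMap.comp_apply, map_smul, map_sum]
    congr 1
    rw [Finset.sum_comm]
    exact Finset.sum_congr rfl fun i _ => Finset.sum_congr rfl fun j _ => h.comm _ _

theorem mtr_amp {κ σ : Type} [Fintype κ] [DecidableEq κ] [Fintype σ] [DecidableEq σ]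
    [Nonempty σ] (e : κ ≃ ι × σ) (M : Mt ι B) : mtr (Mt.amp e M) = mtr M := by
  have hc : (Fintype.card κ : ℂ) = Fintype.card ι * Fintype.card σ := by
    rw [Fintype.card_congr e, Fintype.card_prod]; push_cast; ring
  have hs : (Fintype.card σ : ℂ) ≠ 0 := by simp
  have h1 : ∑ i, Mt.amp e M i i = (Fintype.card σ : ℂ) • ∑ i, M i i := by
    simp only [Mt.amp_apply, if_true]
    rw [← Equiv.sum_comp e.symm, Fintype.sum_prod_type]
    simp [Finset.smul_sum, ← Nat.cast_smul_eq_nsmul ℂ]
  rw [mtr_apply, mtr_apply, h1, hc, smul_smul]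
  congr 1
  rcases eq_or_ne (Fintype.card ι : ℂ) 0 with h | h
  · simp [h]
  · field_simp

theorem mtr_reindex {κ : Type} [Fintype κ] [DecidableEq κ] (e : ι ≃ κ) (M : Mt ι B) :
    mtr (Mt.reindex e M) = mtr M := by
  rw [mtr_apply, mtr_apply, Fintype.card_congr e]
  congr 1
  exact Equiv.sum_comp e.symm fun i => M i i

/-- The normalised trace, pointwise. -/
noncomputable def trOp : C(unitInterval, Mt ι B) →ₗ[ℂ] C(unitInterval, B) where
  toFun f := ⟨fun x => mtr (f x), by
    simp only [mtr_apply]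
    refine Continuous.const_smul (continuous_finsetSum _ fun i _ => ?_) _
    exact (Mt.continuous_entry i i).comp f.continuous⟩
  map_add' f g := by ext x; simp
  map_smul' c f := by ext x; simp

@[simp] theorem trOp_apply (f : C(unitInterval, Mt ι B)) (x : unitInterval) :
    trOp f x = mtr (f x) := rfl

theorem norm_trOp_le (f : C(unitInterval, Mt ι B)) : ‖trOp f‖ ≤ ‖f‖ := by
  rw [ContinuousMap.norm_le _ (norm_nonneg f)]
  intro x
  exact (norm_mtr_le _).trans (f.norm_coe_le_norm x)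

/-- The trace `κ ∘ (id ⊗ tr)` on matrix valued functions. -/
theorem IsTr.matC [Nonempty ι] {κ : C(unitInterval, B) →ₗ[ℂ] ℂ} (h : IsTr κ) :
    IsTr (κ ∘ₗ (trOp : C(unitInterval, Mt ι B) →ₗ[ℂ] C(unitInterval, B))) := by
  have hent : ∀ (f : C(unitInterval, Mt ι B)) (i j : ι), Continuous fun x => f x i j :=
    fun f i j => (Mt.continuous_entry i j).comp f.continuous
  have key : ∀ f g : C(unitInterval, Mt ι B), κ (trOp (f * g)) =
      (1 / (Fintype.card ι : ℂ)) * ∑ i, ∑ k,
        κ ((⟨fun x => f x i k, hent f i k⟩ : C(unitInterval, B)) * ⟨fun x => g x k i, hent g k i⟩) := by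
    intro f g
    simp only [← map_sum]
    have e : trOp (f * g) = (1 / (Fintype.card ι : ℂ)) • ∑ i, ∑ k,
        ((⟨fun x => f x i k, hent f i k⟩ : C(unitInterval, B)) * ⟨fun x => g x k i, hent g k i⟩) := by
      ext x
      simp [mtr_apply, Mt.mul_apply]
    rw [e, map_smul κ, smul_eq_mul]
  refine ⟨?_, ?_, ?_⟩
  · have : trOp (1 : C(unitInterval, Mt ι B)) = 1 := by
      ext x
      simp [mtr_one]
    simp [this, h.one]
  · intro f
    rw [LinearMap.comp_apply, key]
    refine mul_nonneg ?_ (Finset.sum_nonneg fun i _ => Finset.sum_nonneg fun k _ => ?_)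
    · rw [one_div, ← Complex.ofReal_natCast, ← Complex.ofReal_inv]
      exact Complex.zero_le_real.2 (by positivity)
    · exact h.pos ⟨fun x => f x k i, hent f k i⟩
  · intro f g
    rw [LinearMap.comp_apply, LinearMap.comp_apply, key, key]
    congr 1
    rw [Finset.sum_comm]
    exact Finset.sum_congr rfl fun i _ => Finset.sum_congr rfl fun j _ => h.comm _ _

end mtr

end Pool.Agent.H.MP_e11395_an
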