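import Pool.Agent.H.MP_e11395_an.D.Tr

/-!
# Tracial states on C*-algebras: norm, Cauchy-Schwarz, the centre
-/

set_option autoImplicit false
set_option linter.unusedSectionVars false

open Filter Topology
open scoped ComplexOrder

namespace Pool.Agent.H.MP_e11395_an

section pos

variable {A : Type} [Ring A] [StarRing A] [Algebra ℂ A] [StarModule ℂ A]

/-- From positivity of `τ` on `(a + c • b)⋆ (a + c • b)`, `c = 1, I` and `b = 1`. -/
theorem IsTr.map_star {τ : A →ₗ[ℂ] ℂ} (h : IsTr τ) (a : A) : τ (star a) = star (τ a) := by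
  have hp : ∀ x, (τ (star x * x)).im = 0 := fun x => ((Complex.le_def.1 (h.pos x)).2).symm
  have h1 := hp (a + 1)
  have h2 := hp (a + Complex.I • 1)
  have e1 : star (a + 1) * (a + 1) = star a * a + star a + a + 1 := by
    rw [star_add, star_one]; noncomm_ring
  have e2 : star (a + Complex.I • (1 : A)) * (a + Complex.I • 1) =
      star a * a + Complex.I • star a - Complex.I • a + 1 := by
    have e3 : (Complex.I * Complex.I) • (1 : A) = -1 := by
      rw [Complex.I_mul_I, neg_smul, one_smul]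
    rw [star_add, star_smul, star_one, add_mul, mul_add, mul_add]
    simp only [smul_mul_assoc, mul_smul_comm, one_mul, mul_one, smul_smul, Complex.star_def,
      Complex.conj_I, neg_mul, mul_neg, neg_smul, smul_neg, e3]
    abel
  rw [e1, map_add, map_add, map_add, h.one] at h1
  rw [e2, map_add, map_sub, map_add, map_smul, map_smul, h.one] at h2
  have h3 := hp a
  simp only [Complex.add_im, Complex.one_im, Complex.sub_im, smul_eq_mul, Complex.mul_im,
    Complex.I_re, Complex.I_im, zero_mul, one_mul, zero_add, add_zero] at h1 h2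
  apply Complex.ext
  · rw [Complex.star_def, Complex.conj_re]; linarith
  · rw [Complex.star_def, Complex.conj_im]; linarith

/-- Cauchy-Schwarz. -/
theorem IsTr.cauchy {τ : A →ₗ[ℂ] ℂ} (h : IsTr τ) (a b : A) :
    ‖τ (star b * a)‖ ^ 2 ≤ (τ (star b * b)).re * (τ (star a * a)).re := by
  set c : ℂ := τ (star b * a) with hc
  have hc' : τ (star a * b) = star c := by
    rw [hc, ← h.map_star, star_mul, star_star]
  have key : ∀ t : ℝ, 0 ≤ (‖c‖ ^ 2 * (τ (star b * b)).re) * (t * t) + (-2 * ‖c‖ ^ 2) * t +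
      (τ (star a * a)).re := by
    intro t
    have h1 := (Complex.le_def.1 (h.pos (a - ((t : ℂ) * c) • b))).1
    have e1 : star (a - ((t : ℂ) * c) • b) * (a - ((t : ℂ) * c) • b) =
        star a * a - ((t : ℂ) * c) • (star a * b) - ((t : ℂ) * star c) • (star b * a) +
        (((t : ℂ) * star c) * ((t : ℂ) * c)) • (star b * b) := by
      rw [star_sub, star_smul, sub_mul, mul_sub, mul_sub]
      simp only [smul_mul_assoc, mul_smul_comm, smul_smul, star_mul', Complex.star_def,
        Complex.conj_ofReal]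
      rw [mul_comm ((t : ℂ) * c)]
      abel
    rw [e1, map_add, map_sub, map_sub, map_smul, map_smul, map_smul, hc', ← hc] at h1
    have e2 : c * star c = ((‖c‖ ^ 2 : ℝ) : ℂ) := by
      rw [Complex.star_def, Complex.mul_conj, Complex.normSq_eq_norm_sq]
    have e3 : ((t : ℂ) * c) • star c = ((t * ‖c‖ ^ 2 : ℝ) : ℂ) := by
      rw [smul_eq_mul, mul_assoc, e2]; push_cast; ring
    have e4 : ((t : ℂ) * star c) • c = ((t * ‖c‖ ^ 2 : ℝ) : ℂ) := by
      rw [smul_eq_mul, mul_assoc, mul_comm (star c), e2]; push_cast; ring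
    have e5 : ((t : ℂ) * star c) * ((t : ℂ) * c) = ((t * t * ‖c‖ ^ 2 : ℝ) : ℂ) := by
      rw [show ((t : ℂ) * star c) * ((t : ℂ) * c) = (t : ℂ) * t * (c * star c) by ring, e2]
      push_cast; ring
    rw [e3, e4, e5, smul_eq_mul, Complex.add_re, Complex.sub_re, Complex.sub_re,
      Complex.re_ofReal_mul, Complex.ofReal_re, Complex.zero_re] at h1
    linarith
  have hd := discrim_le_zero key
  rw [discrim] at hd
  by_cases h0 : ‖c‖ ^ 2 = 0
  · rw [h0]
    have h1 := (Complex.le_def.1 (h.pos a)).1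
    have h2 := (Complex.le_def.1 (h.pos b)).1
    rw [Complex.zero_re] at h1 h2
    exact mul_nonneg h2 h1
  · have hpos : 0 < ‖c‖ ^ 2 := lt_of_le_of_ne (by positivity) (Ne.symm h0)
    have h3 : ‖c‖ ^ 2 * ‖c‖ ^ 2 ≤ ‖c‖ ^ 2 * ((τ (star b * b)).re * (τ (star a * a)).re) := by
      nlinarith
    exact le_of_mul_le_mul_left h3 hpos

end pos

section cstar

variable {A : Type} [CStarAlgebra A]

/-- A positive element (in the spectral sense) is `w⋆ w`; used for `‖a‖² - a⋆ a`:
there is `w` with `w⋆ w = ‖a‖² - a⋆ a`. -/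
theorem exists_sq_compl (a : A) : ∃ w : A, star w * w = algebraMap ℂ A ((‖a‖ ^ 2 : ℝ) : ℂ) - star a * a := by
  letI := CStarAlgebra.spectralOrder A
  letI := CStarAlgebra.spectralOrderedRing A
  have h1 : star a * a ≤ algebraMap ℝ A (‖a‖ ^ 2) := CStarAlgebra.star_mul_le_algebraMap_norm_sq
  have h2 : 0 ≤ algebraMap ℝ A (‖a‖ ^ 2) - star a * a := sub_nonneg.2 h1
  obtain ⟨w, hw⟩ := CStarAlgebra.nonneg_iff_eq_star_mul_self.1 h2
  refine ⟨w, ?_⟩
  rw [← hw]
  congr 1

theorem IsTr.norm_le {τ : A →ₗ[ℂ] ℂ} (h : IsTr τ) (a : A) : ‖τ a‖ ≤ ‖a‖ := by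
  have h1 : (τ (star a * a)).re ≤ ‖a‖ ^ 2 := by
    obtain ⟨w, hw⟩ := exists_sq_compl a
    have h2 := h.pos w
    rw [hw, map_sub, Algebra.algebraMap_eq_smul_one, map_smul, h.one, smul_eq_mul, mul_one] at h2
    have := (Complex.le_def.1 h2).1
    simp only [Complex.zero_re, Complex.sub_re, Complex.ofReal_re] at this
    linarith
  have h2 := h.cauchy a 1
  simp only [star_one, one_mul, h.one, Complex.one_re] at h2
  have h3 : ‖τ a‖ ^ 2 ≤ ‖a‖ ^ 2 := h2.trans h1
  exact (pow_le_pow_iff_left₀ (norm_nonneg _) (norm_nonneg _) two_ne_zero).1 h3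

end cstar

end Pool.Agent.H.MP_e11395_an
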