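import Pool.Agent.H.MP_e11395_an.D.Tr

/-!
# Traces and matrix units
-/

set_option autoImplicit false
set_option linter.unusedSectionVars false

open Filter Topology

namespace Pool.Agent.H.MP_e11395_an

section units_aux

variable {κ B : Type} [Fintype κ] [DecidableEq κ] [CStarAlgebra B]

/-- The matrix with the single entry `b` at `(i, j)`. -/
noncomputable def units_E (i j : κ) (b : B) : Mt κ B :=
  Mt.of fun a c => if a = i ∧ c = j then b else 0

theorem units_E_apply (i j : κ) (b : B) (a c : κ) :
    units_E i j b a c = if a = i ∧ c = j then b else 0 := rfl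

theorem units_E_mul (i j k l : κ) (b b' : B) :
    units_E i j b * units_E k l b' = if j = k then units_E i l (b * b') else 0 := by
  ext a c
  rw [Mt.mul_apply]
  simp only [units_E_apply]
  rw [Finset.sum_eq_single j]
  · by_cases h : j = k
    · subst h
      by_cases h1 : a = i <;> by_cases h2 : c = l <;> simp [h1, h2, units_E_apply]
    · simp [h]
  · intro x _ hx
    simp [hx]
  · intro h
    exact absurd (Finset.mem_univ _) h

theorem units_E_add (i j : κ) (b b' : B) :
    units_E i j (b + b') = units_E i j b + units_E i j b' := by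
  ext a c
  simp only [units_E_apply, Mt.add_apply]
  split_ifs <;> simp

theorem units_E_smul (i j : κ) (z : ℂ) (b : B) :
    units_E i j (z • b) = z • units_E i j b := by
  ext a c
  simp only [units_E_apply, Mt.smul_apply]
  split_ifs <;> simp

theorem units_sum_apply {σ : Type} (s : Finset σ) (f : σ → Mt κ B) (a c : κ) :
    (∑ x ∈ s, f x) a c = ∑ x ∈ s, f x a c := by
  classical
  induction s using Finset.induction_on with
  | empty => simp
  | insert x s hx ih => rw [Finset.sum_insert hx, Finset.sum_insert hx, Mt.add_apply, ih]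

theorem units_E_sum (M : Mt κ B) : M = ∑ i, ∑ j, units_E i j (M i j) := by
  ext a c
  rw [units_sum_apply]
  simp only [units_sum_apply, units_E_apply]
  rw [Finset.sum_eq_single a, Finset.sum_eq_single c]
  · simp
  · intro x _ hx
    simp [Ne.symm hx]
  · intro h
    exact absurd (Finset.mem_univ _) h
  · intro x _ hx
    exact Finset.sum_eq_zero fun y _ => by simp [Ne.symm hx]
  · intro h
    exact absurd (Finset.mem_univ _) h

end units_aux

/-- `ν` only sees the normalised matrix trace: with `E i j b` the matrix with the single entry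
`b` at `(i,j)`: `w (E i l b) = w (E i j 1 * E j l b) = u (E i j 1) * v (E j l b)`, so
`ν (w (E i l b)) = ν (v (E j l b) * u (E i j 1)) = ν (w (E j l b * E i j 1))`, which is `0` for
`l ≠ i` and `ν (w (E j j b))` for `l = i`. Sum over the entries of `M`. -/
theorem tr_units {A κ B : Type} [Ring A] [Algebra ℂ A] [Fintype κ] [DecidableEq κ] [Nonempty κ]
    [CStarAlgebra B] {ν : A →ₗ[ℂ] ℂ} (hν : ∀ a b, ν (a * b) = ν (b * a))
    (u v w : Mt κ B →ₗ[ℂ] A) (huv : ∀ M N, u M * v N = w (M * N))
    (hvu : ∀ M N, v N * u M = w (N * M)) (M : Mt κ B) :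
    ν (w M) = ν (w (dia κ (mtr M))) := by
  have key : ∀ (i j l : κ) (b : B),
      ν (w (units_E i l b)) = ν (w (if l = i then units_E j j b else 0)) := by
    intro i j l b
    have h1 : units_E i l b = units_E i j (1 : B) * units_E j l b := by
      rw [units_E_mul, if_pos rfl, one_mul]
    have h2 : units_E j l b * units_E i j (1 : B) = if l = i then units_E j j b else 0 := by
      rw [units_E_mul, mul_one]
    rw [h1, ← huv, hν, hvu, h2]
  obtain ⟨o⟩ := ‹Nonempty κ›
  let L : B →ₗ[ℂ] ℂ :=
    { toFun := fun b => ν (w (units_E o o b))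
      map_add' := fun b b' => by rw [units_E_add, map_add, map_add]
      map_smul' := fun z b => by rw [units_E_smul, map_smul, map_smul]; rfl }
  have hL : ∀ N : Mt κ B, ν (w N) = L (∑ i, N i i) := by
    intro N
    conv_lhs => rw [units_E_sum N]
    rw [map_sum, map_sum, map_sum]
    refine Finset.sum_congr rfl fun i _ => ?_
    rw [map_sum, map_sum, Finset.sum_eq_single i]
    · rw [key i o i, if_pos rfl]
      rfl
    · intro j _ hj
      rw [key i o j, if_neg hj, map_zero, map_zero]
    · intro h
      exact absurd (Finset.mem_univ _) h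
  rw [hL, hL]
  congr 1
  have hc : (Fintype.card κ : ℂ) ≠ 0 := by
    have : Nonempty κ := ⟨o⟩
    simp
  simp only [dia_apply, if_true, Finset.sum_const, Finset.card_univ, mtr_apply]
  rw [← Nat.cast_smul_eq_nsmul ℂ, smul_smul, mul_one_div_cancel hc, one_smul]

end Pool.Agent.H.MP_e11395_an
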