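import Pool.Agent.H.MP_e11395_an.D.AvgA
import Pool.Agent.H.MP_e11395_an.D.Units

/-!
# Traces on a building block: the interior
-/

set_option autoImplicit false
set_option linter.unusedSectionVars false

open Filter Topology

namespace Pool.Agent.H.MP_e11395_an

namespace TowerData

variable {B : Type} [CStarAlgebra B] {d : ℕ → ℕ} (T : TowerData d)

/-- A matrix of functions as a matrix valued function. -/
noncomputable def avgm_toC {κ : Type} [Fintype κ] [DecidableEq κ] (M : Mt κ C(unitInterval, B)) :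
    C(unitInterval, Mt κ B) :=
  ⟨fun x => Mt.of fun i j => M i j x, by
    rw [Mt.continuous_iff]
    intro i j
    exact (M i j).continuous⟩

theorem avgm_toC_apply {κ : Type} [Fintype κ] [DecidableEq κ] (M : Mt κ C(unitInterval, B))
    (x : unitInterval) (i j : κ) : avgm_toC M x i j = M i j x := rfl

theorem avgm_toC_mul {κ : Type} [Fintype κ] [DecidableEq κ] (M N : Mt κ C(unitInterval, B))
    (x : unitInterval) : avgm_toC (M * N) x = avgm_toC M x * avgm_toC N x := by
  ext i j
  rw [avgm_toC_apply, Mt.mul_apply, Mt.mul_apply, ContinuousMap.sum_apply]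
  rfl

/-- The linear map `M ↦ mid c (toC M)`. -/
noncomputable def avgm_mid (n : ℕ) (c : C(unitInterval, ℂ)) (h0 : c 0 = 0) (h1 : c 1 = 0) :
    Mt (Fin (T.r n)) C(unitInterval, B) →ₗ[ℂ] T.Bk B n where
  toFun M := T.mid n c h0 h1 (avgm_toC M)
  map_add' M N := by
    rw [← map_add]
    rfl
  map_smul' z M := by
    rw [RingHom.id_apply, ← map_smul]
    rfl

theorem avgm_mid_val (n : ℕ) (c : C(unitInterval, ℂ)) (h0 : c 0 = 0) (h1 : c 1 = 0)
    (M : Mt (Fin (T.r n)) C(unitInterval, B)) (x : unitInterval) :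
    (avgm_mid T n c h0 h1 M : T.Bk B n).val x = c x • avgm_toC M x := rfl

theorem avgm_mid_mul (n : ℕ) (s : C(unitInterval, ℂ)) (h0 : s 0 = 0) (h1 : s 1 = 0)
    (h0' : (s * s) 0 = 0) (h1' : (s * s) 1 = 0)
    (M N : Mt (Fin (T.r n)) C(unitInterval, B)) :
    (avgm_mid T n s h0 h1 M : T.Bk B n) * avgm_mid T n s h0 h1 N =
      avgm_mid T n (s * s) h0' h1' (M * N) := by
  apply Bk.ext
  refine ContinuousMap.ext fun x => ?_
  rw [Bk.val_mul, ContinuousMap.mul_apply, avgm_mid_val, avgm_mid_val, avgm_mid_val,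
    avgm_toC_mul, ContinuousMap.mul_apply, smul_mul_smul_comm]

/-- `tr_units` with `κ = Fin r`, the C*-algebra `C([0,1], B)` (a matrix `M` over `C([0,1], B)` is
turned into the function `x ↦ (M i j x)` with values in `Mt (Fin r) B`; this is bijective, so
`F` comes from some `M`, and `mtr M = trOp F`), `u = v = mid s`, `w = mid (s * s)`. -/
theorem tr_mid (n : ℕ) {ν : T.Bk B n →ₗ[ℂ] ℂ} (hν : IsTr ν) (s : C(unitInterval, ℂ))
    (h0 : s 0 = 0) (h1 : s 1 = 0) (F : C(unitInterval, Mt (Fin (T.r n)) B)) :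
    ν (T.mid n (s * s) (by simp [h0]) (by simp [h1]) F) =
      ν (T.cst n ⟨fun x => (s * s) x • trOp F x, (s * s).continuous.smul (trOp F).continuous⟩) := by
  have : Nonempty (Fin (T.r n)) := ⟨⟨0, T.r_pos n⟩⟩
  have h0' : (s * s) 0 = 0 := by simp [h0]
  have h1' : (s * s) 1 = 0 := by simp [h1]
  have hent : ∀ i j, Continuous fun x => F x i j := fun i j =>
    (Mt.continuous_entry i j).comp F.continuous
  have key := tr_units (A := T.Bk B n) (κ := Fin (T.r n)) (B := C(unitInterval, B)) hν.comm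
    (avgm_mid T n s h0 h1) (avgm_mid T n s h0 h1) (avgm_mid T n (s * s) h0' h1')
    (fun M N => avgm_mid_mul T n s h0 h1 h0' h1' M N)
    (fun M N => avgm_mid_mul T n s h0 h1 h0' h1' N M)
    (Mt.of fun i j => ⟨fun x => F x i j, hent i j⟩)
  have e1 : (avgm_mid T n (s * s) h0' h1' (Mt.of fun i j => ⟨fun x => F x i j, hent i j⟩) :
      T.Bk B n) = T.mid n (s * s) h0' h1' F := by
    apply Bk.ext
    refine ContinuousMap.ext fun x => ?_
    rw [avgm_mid_val, mid_val]
    rfl
  have e2 : (avgm_mid T n (s * s) h0' h1'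
      (dia (Fin (T.r n)) (mtr (Mt.of fun i j => ⟨fun x => F x i j, hent i j⟩))) : T.Bk B n) =
      T.cst n ⟨fun x => (s * s) x • trOp F x,
        (s * s).continuous.smul (trOp F).continuous⟩ := by
    apply Bk.ext
    refine ContinuousMap.ext fun x => ?_
    rw [avgm_mid_val, cst_val, diaC_apply]
    ext i j
    rw [Mt.smul_apply, avgm_toC_apply, dia_apply, dia_apply]
    by_cases h : i = j
    · rw [if_pos h, if_pos h]
      change (s * s) x • _ = (s * s) x • trOp F x
      congr 1
      rw [trOp_apply, mtr_apply, mtr_apply, ContinuousMap.smul_apply, ContinuousMap.sum_apply]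
      rfl
    · rw [if_neg h, if_neg h, ContinuousMap.zero_apply, smul_zero]
  rw [e1, e2] at key
  exact key

end TowerData

end Pool.Agent.H.MP_e11395_an
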