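import Pool.Agent.H.MP_e11395_an.D.AvgE
import Pool.Agent.H.MP_e11395_an.D.AvgM

/-!
# Traces on a building block
-/

set_option autoImplicit false
set_option linter.unusedSectionVars false

open Filter Topology

namespace Pool.Agent.H.MP_e11395_an

/-- A function on the unit interval vanishing at both ends is close to its product with
`s * s`, `s` vanishing at both ends. -/
theorem avg_cutoff {E : Type} [NormedAddCommGroup E] [NormedSpace ℂ E]
    (g : C(unitInterval, E)) (g0 : g 0 = 0) (g1 : g 1 = 0) {ε : ℝ} (hε : 0 < ε) :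
    ∃ s : C(unitInterval, ℂ), s 0 = 0 ∧ s 1 = 0 ∧
      ∀ x, ‖g x - (s * s) x • g x‖ ≤ ε := by
  have c0 : ∀ᶠ x in 𝓝 (0 : unitInterval), ‖g x‖ < ε := by
    have h : Tendsto (fun x => ‖g x‖) (𝓝 (0 : unitInterval)) (𝓝 ‖g 0‖) :=
      (g.continuous.norm).tendsto 0
    rw [g0, norm_zero] at h
    exact h.eventually (gt_mem_nhds hε)
  have c1 : ∀ᶠ x in 𝓝 (1 : unitInterval), ‖g x‖ < ε := by
    have h : Tendsto (fun x => ‖g x‖) (𝓝 (1 : unitInterval)) (𝓝 ‖g 1‖) :=
      (g.continuous.norm).tendsto 1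
    rw [g1, norm_zero] at h
    exact h.eventually (gt_mem_nhds hε)
  obtain ⟨δ₀, hδ₀, H0⟩ := Metric.eventually_nhds_iff.1 c0
  obtain ⟨δ₁, hδ₁, H1⟩ := Metric.eventually_nhds_iff.1 c1
  set δ := min δ₀ δ₁ with hδdef
  have hδ : 0 < δ := lt_min hδ₀ hδ₁
  have k0 : ∀ x : unitInterval, (x : ℝ) < δ → ‖g x‖ < ε := by
    intro x hx
    refine H0 ?_
    rw [Subtype.dist_eq, Real.dist_eq, Set.Icc.coe_zero, sub_zero, abs_of_nonneg x.2.1]
    exact hx.trans_le (min_le_left _ _)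
  have k1 : ∀ x : unitInterval, 1 - (x : ℝ) < δ → ‖g x‖ < ε := by
    intro x hx
    refine H1 ?_
    rw [Subtype.dist_eq, Real.dist_eq, Set.Icc.coe_one, abs_sub_comm,
      abs_of_nonneg (sub_nonneg.2 x.2.2)]
    exact hx.trans_le (min_le_right _ _)
  refine ⟨⟨fun x => ((min 1 ((x : ℝ) * (1 - x) / δ ^ 2) : ℝ) : ℂ), by fun_prop⟩, ?_, ?_, ?_⟩
  · simp
  · simp
  · intro x
    set t : ℝ := min 1 ((x : ℝ) * (1 - x) / δ ^ 2) with ht
    have hx0 : 0 ≤ (x : ℝ) := x.2.1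
    have hx1 : 0 ≤ 1 - (x : ℝ) := sub_nonneg.2 x.2.2
    have t0 : 0 ≤ t := le_min zero_le_one (by positivity)
    have t1 : t ≤ 1 := min_le_left _ _
    have e1 : g x - ((⟨fun x : unitInterval => ((min 1 ((x : ℝ) * (1 - x) / δ ^ 2) : ℝ) : ℂ),
        by fun_prop⟩ : C(unitInterval, ℂ)) * (⟨fun x : unitInterval =>
          ((min 1 ((x : ℝ) * (1 - x) / δ ^ 2) : ℝ) : ℂ), by fun_prop⟩ : C(unitInterval, ℂ))) x •
          g x = ((1 - t * t : ℝ) : ℂ) • g x := by
      rw [ContinuousMap.mul_apply]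
      change g x - ((t : ℂ) * (t : ℂ)) • g x = _
      rw [Complex.ofReal_sub, Complex.ofReal_one, Complex.ofReal_mul, sub_smul, one_smul]
    rw [e1, norm_smul, Complex.norm_real, Real.norm_eq_abs, abs_of_nonneg (by nlinarith)]
    rcases lt_or_ge (x : ℝ) δ with h | h
    · have := k0 x h
      have h2 : (1 - t * t) * ‖g x‖ ≤ 1 * ‖g x‖ :=
        mul_le_mul_of_nonneg_right (by nlinarith) (norm_nonneg _)
      linarith
    · rcases lt_or_ge (1 - (x : ℝ)) δ with h' | h'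
      · have := k1 x h'
        have h2 : (1 - t * t) * ‖g x‖ ≤ 1 * ‖g x‖ :=
          mul_le_mul_of_nonneg_right (by nlinarith) (norm_nonneg _)
        linarith
      · have h3 : t = 1 := by
          rw [ht, min_eq_left]
          rw [le_div_iff₀ (by positivity), one_mul, sq]
          exact mul_le_mul h h' hδ.le hx0
        rw [h3]
        simp [hε.le]

namespace TowerData

variable {B : Type} [CStarAlgebra B] {d : ℕ → ℕ} (T : TowerData d)

theorem avg_norm (n : ℕ) {ν : T.Bk B n →ₗ[ℂ] ℂ} (hν : IsTr ν) (a : T.Bk B n) :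
    ‖ν a‖ ≤ ‖a.val‖ := by
  rw [Bk.norm_val]
  exact hν.norm_le a

/-- **Traces only see the normalised matrix trace.**
`f = f₀ + f₁ + f₂` with `f₀ = endL (s₀ * s₀) g₀`, `s₀ x = √(1-x)`, `f 0 = amp e₀ g₀`;
`f₁ = endR (s₁ * s₁) g₁`, `s₁ x = √x`, `f 1 = amp e₁ g₁`; `f₂ 0 = f₂ 1 = 0`.
`tr_endL`, `tr_endR` give the claim for `f₀`, `f₁` (`mtr_amp`). For `f₂` and `ε > 0` take
`c = s * s`, `c x = min 1 (K x (1-x))` with `K` so large that `‖f₂ x - c x • f₂ x‖ ≤ ε` (near the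
ends `‖f₂ x‖ ≤ ε` by continuity, elsewhere `c = 1`); `tr_mid` gives the claim for `c f₂`, and
`IsTr.norm_le` on the C*-algebra `T.Bk B n`, `‖cst (trOp F)‖ ≤ ‖F‖` (`norm_diaC_le`,
`norm_trOp_le`) bound the error by `2 ε`. -/
theorem tr_avg (n : ℕ) {ν : T.Bk B n →ₗ[ℂ] ℂ} (hν : IsTr ν) (f : T.Bk B n) :
    ν f = ν (T.cst n (trOp f.val)) := by
  obtain ⟨⟨g₀, h₀⟩, ⟨g₁, h₁⟩⟩ := (T.mem_Bl).1 f.val_mem
  have np : Nonempty (Fin (T.p n)) := ⟨⟨0, T.p_pos n⟩⟩
  have nq : Nonempty (Fin (T.q n)) := ⟨⟨0, T.q_pos n⟩⟩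
  -- the difference functional
  let L : T.Bk B n →ₗ[ℂ] ℂ :=
    { toFun := fun f => ν f - ν (T.cst n (trOp f.val))
      map_add' := fun a b => by
        have e : trOp ((a + b : T.Bk B n).val) =
            trOp a.val +
              trOp b.val :=
          map_add trOp a.val _
        rw [e, map_add, map_add, map_add]
        ring
      map_smul' := fun z a => by
        have e : trOp ((z • a : T.Bk B n).val) =
            z • trOp a.val :=
          map_smul trOp z a.val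
        have e2 : T.cst n (z • trOp a.val) =
            z • T.cst n (trOp a.val) := map_smul _ _ _
        rw [e, e2, map_smul, map_smul, RingHom.id_apply, smul_eq_mul, smul_eq_mul, smul_eq_mul]
        ring }
  have hL : ∀ a : T.Bk B n,
      L a = ν a - ν (T.cst n (trOp a.val)) := fun _ => rfl
  have hbound : ∀ a : T.Bk B n, ‖L a‖ ≤ 2 * ‖a.val‖ := by
    intro a
    rw [hL]
    have b1 := T.avg_norm n hν a
    have b2 : ‖ν (T.cst n (trOp a.val))‖ ≤
        ‖a.val‖ := by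
      refine (T.avg_norm n hν _).trans ?_
      rw [cst_val]
      exact (norm_diaC_le _).trans (norm_trOp_le _)
    have b3 := norm_sub_le (ν a) (ν (T.cst n (trOp a.val)))
    linarith
  -- the ends
  let s₀ : C(unitInterval, ℂ) := ⟨fun x => ((Real.sqrt (1 - x) : ℝ) : ℂ), by fun_prop⟩
  let s₁ : C(unitInterval, ℂ) := ⟨fun x => ((Real.sqrt x : ℝ) : ℂ), by fun_prop⟩
  have s₀1 : s₀ 1 = 0 := by simp [s₀]
  have s₁0 : s₁ 0 = 0 := by simp [s₁]
  have s₀0 : s₀ 0 = 1 := by simp [s₀]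
  have s₁1 : s₁ 1 = 1 := by simp [s₁]
  have z₀ : (s₀ * s₀) 1 = 0 := by simp [s₀1]
  have z₁ : (s₁ * s₁) 0 = 0 := by simp [s₁0]
  have L0 : L (T.endL n (s₀ * s₀) z₀ g₀) = 0 := by
    rw [hL, T.tr_endL n hν s₀ s₀1 g₀, sub_eq_zero]
    congr 2
    ext x
    change (s₀ * s₀) x • mtr g₀ = mtr ((s₀ * s₀) x • Mt.amp (T.e₀ n) g₀)
    rw [map_smul, mtr_amp]
  have L1 : L (T.endR n (s₁ * s₁) z₁ g₁) = 0 := by
    rw [hL, T.tr_endR n hν s₁ s₁0 g₁, sub_eq_zero]
    congr 2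
    ext x
    change (s₁ * s₁) x • mtr g₁ = mtr ((s₁ * s₁) x • Mt.amp (T.e₁ n) g₁)
    rw [map_smul, mtr_amp]
  -- the interior
  set f₂ : T.Bk B n := f - T.endL n (s₀ * s₀) z₀ g₀ - T.endR n (s₁ * s₁) z₁ g₁ with hf₂
  have hf2x : ∀ x, f₂.val x =
      f.val x - (s₀ * s₀) x • Mt.amp (T.e₀ n) g₀ -
        (s₁ * s₁) x • Mt.amp (T.e₁ n) g₁ := fun _ => rfl
  have f20 : f₂.val 0 = 0 := by
    rw [hf2x, ← h₀, z₁, ContinuousMap.mul_apply, s₀0]
    simp
  have f21 : f₂.val 1 = 0 := by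
    rw [hf2x, ← h₁, z₀, ContinuousMap.mul_apply, s₁1]
    simp
  have L2 : L f₂ = 0 := by
    rw [← norm_eq_zero]
    refine le_antisymm (le_of_forall_pos_le_add fun ε hε => ?_) (norm_nonneg _)
    rw [zero_add]
    obtain ⟨s, hs0, hs1, hs⟩ := avg_cutoff
      f₂.val f20 f21 (half_pos hε)
    have y0 : (s * s) 0 = 0 := by simp [hs0]
    have y1 : (s * s) 1 = 0 := by simp [hs1]
    set h : T.Bk B n := T.mid n (s * s) y0 y1 f₂.val with hh
    have Lh : L h = 0 := by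
      rw [hL, hh, T.tr_mid n hν s hs0 hs1, sub_eq_zero]
      congr 2
      ext x
      change (s * s) x • mtr (f₂.val x) =
        mtr ((s * s) x • f₂.val x)
      rw [map_smul]
    have hn : ‖((f₂ - h : T.Bk B n).val)‖ ≤ ε / 2 := by
      rw [ContinuousMap.norm_le _ (half_pos hε).le]
      intro x
      exact hs x
    have e : L (f₂ - h) = L f₂ := by
      have e1 : L (f₂ - h + h) = L (f₂ - h) + L h := map_add L _ _
      rw [Lh, add_zero] at e1
      have e2 : f₂ - h + h = f₂ := sub_add_cancel f₂ h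
      exact e1.symm.trans (congrArg L e2)
    rw [← e]
    have := hbound (f₂ - h)
    linarith
  have e : f = T.endL n (s₀ * s₀) z₀ g₀ + T.endR n (s₁ * s₁) z₁ g₁ + f₂ := by
    rw [hf₂]; abel
  have : L f = 0 := by
    rw [e, map_add, map_add, L0, L1, L2]; simp
  rw [hL] at this
  exact sub_eq_zero.1 this

end TowerData

end Pool.Agent.H.MP_e11395_an
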