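import Pool.Agent.H.MP_e11395_an.D.StateA
import Pool.Agent.H.MP_e11395_an.Cone

/-!
# Traces on a building block
-/

set_option autoImplicit false
set_option linter.unusedSectionVars false

open Filter Topology

namespace Pool.Agent.H.MP_e11395_an

variable {B : Type} [CStarAlgebra B]

/-- The function `x ↦ g x ⊗ 1`. -/
noncomputable def diaC (ι : Type) [Fintype ι] [DecidableEq ι] {B : Type} [CStarAlgebra B] :
    C(unitInterval, B) →⋆ₐ[ℂ] C(unitInterval, Mt ι B) where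
  toFun g := ⟨fun x => dia ι (g x), by
    rw [Mt.continuous_iff]
    intro i j
    simp only [dia_apply]
    split_ifs
    · exact g.continuous
    · exact continuous_const⟩
  map_one' := by ext x : 1; exact map_one (dia ι)
  map_mul' f g := by ext x : 1; exact map_mul (dia ι) _ _
  map_zero' := by ext x : 1; exact map_zero (dia ι)
  map_add' f g := by ext x : 1; exact map_add (dia ι) _ _
  commutes' c := by ext x : 1; exact AlgHomClass.commutes (dia ι) c
  map_star' f := by ext x : 1; exact map_star (dia ι) _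

@[simp] theorem diaC_apply (ι : Type) [Fintype ι] [DecidableEq ι] (g : C(unitInterval, B))
    (x : unitInterval) : diaC ι g x = dia ι (g x) := rfl

theorem trOp_diaC {ι : Type} [Fintype ι] [DecidableEq ι] [Nonempty ι] (g : C(unitInterval, B)) :
    trOp (diaC ι g) = g := by
  ext x
  simp [mtr_dia]

theorem norm_diaC_le {ι : Type} [Fintype ι] [DecidableEq ι] (g : C(unitInterval, B)) :
    ‖diaC ι g‖ ≤ ‖g‖ :=
  NonUnitalStarAlgHom.norm_apply_le (diaC ι) g

theorem amp_dia {ι κ σ : Type} [Fintype ι] [DecidableEq ι] [Fintype κ] [DecidableEq κ]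
    [Fintype σ] [DecidableEq σ] (e : κ ≃ ι × σ) (b : B) : Mt.amp e (dia ι b) = dia κ b := by
  ext i j
  rw [Mt.amp_apply, dia_apply, dia_apply]
  by_cases h : i = j
  · simp [h]
  · rw [if_neg h]
    by_cases h2 : (e i).2 = (e j).2
    · rw [if_pos h2, if_neg fun h1 => h (e.injective (Prod.ext h1 h2))]
    · rw [if_neg h2]

namespace TowerData

variable {d : ℕ → ℕ} (T : TowerData d)

theorem diaC_mem (n : ℕ) (g : C(unitInterval, B)) : diaC (Fin (T.r n)) g ∈ T.Bl B n :=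
  (T.mem_Bl).2 ⟨⟨dia _ (g 0), amp_dia _ _⟩, ⟨dia _ (g 1), amp_dia _ _⟩⟩

/-- `C([0,1], B)` in the building block. -/
noncomputable def cst (n : ℕ) : C(unitInterval, B) →⋆ₐ[ℂ] T.Bk B n where
  toFun g := Bk.mk (diaC (Fin (T.r n)) g) (T.diaC_mem n g)
  map_one' := Bk.ext (map_one (diaC (Fin (T.r n))))
  map_mul' f g := Bk.ext (map_mul (diaC (Fin (T.r n))) _ _)
  map_zero' := Bk.ext (map_zero (diaC (Fin (T.r n))))
  map_add' f g := Bk.ext (map_add (diaC (Fin (T.r n))) _ _)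
  commutes' c := Bk.ext (AlgHomClass.commutes (diaC (Fin (T.r n))) c)
  map_star' f := Bk.ext (map_star (diaC (Fin (T.r n))) _)

@[simp] theorem cst_val (n : ℕ) (g : C(unitInterval, B)) :
    (T.cst n g : T.Bk B n).val = diaC (Fin (T.r n)) g := rfl

/-- `x ↦ c x • amp e₀ g`. -/
noncomputable def endL (n : ℕ) (c : C(unitInterval, ℂ)) (h1 : c 1 = 0) :
    Mt (Fin (T.p n)) B →ₗ[ℂ] T.Bk B n where
  toFun g := Bk.mk ⟨fun x => c x • Mt.amp (T.e₀ n) g, c.continuous.smul continuous_const⟩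
    ((T.mem_Bl).2 ⟨⟨c 0 • g, by simp⟩, ⟨0, by simp [h1]⟩⟩)
  map_add' g g' := Bk.ext (by ext x : 1; simp)
  map_smul' a g := Bk.ext (by ext x : 1; simp [smul_smul, mul_comm])

theorem endL_val (n : ℕ) (c : C(unitInterval, ℂ)) (h1 : c 1 = 0) (g : Mt (Fin (T.p n)) B)
    (x : unitInterval) : (T.endL n c h1 g : T.Bk B n).val x = c x • Mt.amp (T.e₀ n) g := rfl

/-- `x ↦ c x • amp e₁ g`. -/
noncomputable def endR (n : ℕ) (c : C(unitInterval, ℂ)) (h0 : c 0 = 0) :
    Mt (Fin (T.q n)) B →ₗ[ℂ] T.Bk B n where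
  toFun g := Bk.mk ⟨fun x => c x • Mt.amp (T.e₁ n) g, c.continuous.smul continuous_const⟩
    ((T.mem_Bl).2 ⟨⟨0, by simp [h0]⟩, ⟨c 1 • g, by simp⟩⟩)
  map_add' g g' := Bk.ext (by ext x : 1; simp)
  map_smul' a g := Bk.ext (by ext x : 1; simp [smul_smul, mul_comm])

theorem endR_val (n : ℕ) (c : C(unitInterval, ℂ)) (h0 : c 0 = 0) (g : Mt (Fin (T.q n)) B)
    (x : unitInterval) : (T.endR n c h0 g : T.Bk B n).val x = c x • Mt.amp (T.e₁ n) g := rfl

/-- `x ↦ c x • F x`, for `c` vanishing at the ends. -/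
noncomputable def mid (n : ℕ) (c : C(unitInterval, ℂ)) (h0 : c 0 = 0) (h1 : c 1 = 0) :
    C(unitInterval, Mt (Fin (T.r n)) B) →ₗ[ℂ] T.Bk B n where
  toFun F := Bk.mk ⟨fun x => c x • F x, c.continuous.smul F.continuous⟩
    ((T.mem_Bl).2 ⟨⟨0, by simp [h0]⟩, ⟨0, by simp [h1]⟩⟩)
  map_add' g g' := Bk.ext (by ext x : 1; simp)
  map_smul' a g := Bk.ext (by ext x : 1; simp [smul_smul, mul_comm])

theorem mid_val (n : ℕ) (c : C(unitInterval, ℂ)) (h0 : c 0 = 0) (h1 : c 1 = 0)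
    (F : C(unitInterval, Mt (Fin (T.r n)) B)) (x : unitInterval) :
    (T.mid n c h0 h1 F : T.Bk B n).val x = c x • F x := rfl

/-- `x ↦ c x • b`. -/
noncomputable def cb (c : C(unitInterval, ℂ)) (b : B) : C(unitInterval, B) :=
  ⟨fun x => c x • b, c.continuous.smul continuous_const⟩

end TowerData

end Pool.Agent.H.MP_e11395_an
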