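import Pool.Agent.H.MP_e11395_an.D.AvgA
import Pool.Agent.H.MP_e11395_an.D.Units

/-!
# Traces on a building block: the ends
-/

set_option autoImplicit false
set_option linter.unusedSectionVars false

open Filter Topology

namespace Pool.Agent.H.MP_e11395_an

namespace TowerData

variable {B : Type} [CStarAlgebra B] {d : ℕ → ℕ} (T : TowerData d)

/-- `tr_units` with `κ = Fin p`, `u = v = endL s`, `w = endL (s * s)` (`s 1 = 0`); the diagonal
matrix `dia (mtr g)` is amplified to `dia (mtr g)` (`amp_dia`), so the right hand side of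
`tr_units` is `cst` of `x ↦ (s x * s x) • mtr g`. -/
theorem tr_endL (n : ℕ) {ν : T.Bk B n →ₗ[ℂ] ℂ} (hν : IsTr ν) (s : C(unitInterval, ℂ))
    (h1 : s 1 = 0) (g : Mt (Fin (T.p n)) B) :
    ν (T.endL n (s * s) (by simp [h1]) g) = ν (T.cst n (cb (s * s) (mtr g))) := by
  have hne : Nonempty (Fin (T.p n)) := ⟨⟨0, T.p_pos n⟩⟩
  have h11 : (s * s) 1 = 0 := by simp [h1]
  have huv : ∀ M N : Mt (Fin (T.p n)) B,
      T.endL n s h1 M * T.endL n s h1 N = T.endL n (s * s) h11 (M * N) := by
    intro M N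
    refine Bk.ext (ContinuousMap.ext fun x => ?_)
    rw [Bk.val_mul, ContinuousMap.mul_apply, endL_val, endL_val, endL_val, map_mul,
      smul_mul_smul_comm, ContinuousMap.mul_apply]
  refine (tr_units hν.comm (T.endL n s h1) (T.endL n s h1) (T.endL n (s * s) h11) huv
    (fun M N => huv N M) g).trans ?_
  congr 1
  refine Bk.ext (ContinuousMap.ext fun x => ?_)
  rw [endL_val, amp_dia, cst_val, diaC_apply, ← map_smul]
  rfl

/-- The same at the other end. -/
theorem tr_endR (n : ℕ) {ν : T.Bk B n →ₗ[ℂ] ℂ} (hν : IsTr ν) (s : C(unitInterval, ℂ))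
    (h0 : s 0 = 0) (g : Mt (Fin (T.q n)) B) :
    ν (T.endR n (s * s) (by simp [h0]) g) = ν (T.cst n (cb (s * s) (mtr g))) := by
  have hne : Nonempty (Fin (T.q n)) := ⟨⟨0, T.q_pos n⟩⟩
  have h00 : (s * s) 0 = 0 := by simp [h0]
  have huv : ∀ M N : Mt (Fin (T.q n)) B,
      T.endR n s h0 M * T.endR n s h0 N = T.endR n (s * s) h00 (M * N) := by
    intro M N
    refine Bk.ext (ContinuousMap.ext fun x => ?_)
    rw [Bk.val_mul, ContinuousMap.mul_apply, endR_val, endR_val, endR_val, map_mul,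
      smul_mul_smul_comm, ContinuousMap.mul_apply]
  refine (tr_units hν.comm (T.endR n s h0) (T.endR n s h0) (T.endR n (s * s) h00) huv
    (fun M N => huv N M) g).trans ?_
  congr 1
  refine Bk.ext (ContinuousMap.ext fun x => ?_)
  rw [endR_val, amp_dia, cst_val, diaC_apply, ← map_smul]
  rfl

end TowerData

end Pool.Agent.H.MP_e11395_an
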