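import Pool.Agent.H.MP_e11395_an.D.State

/-!
# Extreme tracial states of `C([0,1], B)`
-/

set_option autoImplicit false
set_option linter.unusedSectionVars false

open Filter Topology

namespace Pool.Agent.H.MP_e11395_an

variable {B : Type} [CStarAlgebra B]

/-- Evaluation. -/
noncomputable def evC (x : unitInterval) : C(unitInterval, B) →⋆ₐ[ℂ] B where
  toFun g := g x
  map_one' := rfl
  map_mul' _ _ := rfl
  map_zero' := rfl
  map_add' _ _ := rfl
  commutes' _ := rfl
  map_star' _ := rfl

@[simp] theorem evC_apply (x : unitInterval) (g : C(unitInterval, B)) : evC x g = g x := rfl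

/-- `σ ∘ ev_x`. -/
noncomputable def ptTr (σ : B →ₗ[ℂ] ℂ) (x : unitInterval) : C(unitInterval, B) →ₗ[ℂ] ℂ :=
  σ ∘ₗ ((evC x : C(unitInterval, B) →⋆ₐ[ℂ] B) : C(unitInterval, B) →ₐ[ℂ] B).toLinearMap

@[simp] theorem ptTr_apply (σ : B →ₗ[ℂ] ℂ) (x : unitInterval) (g : C(unitInterval, B)) :
    ptTr σ x g = σ (g x) := rfl

theorem IsTr.pt {σ : B →ₗ[ℂ] ℂ} (h : IsTr σ) (x : unitInterval) : IsTr (ptTr σ x) := h.comp _

/-- Constant functions. -/
noncomputable def constC : B →⋆ₐ[ℂ] C(unitInterval, B) where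
  toFun b := ContinuousMap.const _ b
  map_one' := rfl
  map_mul' _ _ := rfl
  map_zero' := rfl
  map_add' _ _ := rfl
  commutes' _ := rfl
  map_star' _ := rfl

@[simp] theorem constC_apply (b : B) (x : unitInterval) : constC b x = b := rfl

/-- A tracial state `κ` of `C([0,1],B)` which vanishes on all functions vanishing at `x` comes
from the point `x`. -/
theorem tr_of_vanish {κ : C(unitInterval, B) →ₗ[ℂ] ℂ} (x : unitInterval)
    (h : ∀ g : C(unitInterval, B), g x = 0 → κ g = 0) (g : C(unitInterval, B)) :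
    κ g = κ (constC (g x)) := by
  have h1 := h (g - constC (g x)) (by simp)
  rw [map_sub] at h1
  exact sub_eq_zero.1 h1

end Pool.Agent.H.MP_e11395_an
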