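import Pool.Agent.H.MP_e11395_an.D.ExtA

/-!
# Extreme tracial states of `C([0,1], B)`
-/

set_option autoImplicit false
set_option linter.unusedSectionVars false

open Filter Topology

namespace Pool.Agent.H.MP_e11395_an

variable {B : Type} [CStarAlgebra B]

/-- Scalar valued functions. -/
noncomputable def extb_sc (B : Type) [CStarAlgebra B] (c : C(unitInterval, ℝ)) :
    C(unitInterval, B) :=
  ⟨fun y => ((c y : ℝ) : ℂ) • (1 : B), by fun_prop⟩

@[simp] theorem extb_sc_apply (c : C(unitInterval, ℝ)) (y : unitInterval) :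
    extb_sc B c y = ((c y : ℝ) : ℂ) • (1 : B) := rfl

theorem extb_sc_one : extb_sc B 1 = 1 := by
  ext y
  simp

theorem extb_sc_add (c d : C(unitInterval, ℝ)) :
    extb_sc B (c + d) = extb_sc B c + extb_sc B d := by
  ext y
  simp [add_smul]

theorem extb_sc_sum {ι : Type*} (t : Finset ι) (c : ι → C(unitInterval, ℝ)) :
    extb_sc B (∑ i ∈ t, c i) = ∑ i ∈ t, extb_sc B (c i) := by
  classical
  induction t using Finset.induction_on with
  | empty =>
    ext y
    simp
  | insert a t ha ih => rw [Finset.sum_insert ha, Finset.sum_insert ha, extb_sc_add, ih]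

theorem extb_sc_mul (c d : C(unitInterval, ℝ)) :
    extb_sc B (c * d) = extb_sc B c * extb_sc B d := by
  ext y
  have e : (extb_sc B c * extb_sc B d) y =
      (((c y : ℝ) : ℂ) • (1 : B)) * (((d y : ℝ) : ℂ) • (1 : B)) := rfl
  rw [e, smul_mul_smul_comm, one_mul, ← Complex.ofReal_mul]
  rfl

theorem extb_sc_smul (r : ℝ) (c : C(unitInterval, ℝ)) :
    extb_sc B (r • c) = (r : ℂ) • extb_sc B c := by
  ext y
  have e : ((r : ℂ) • extb_sc B c) y = (r : ℂ) • (((c y : ℝ) : ℂ) • (1 : B)) := rfl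
  rw [e, smul_smul, ← Complex.ofReal_mul]
  rfl

theorem extb_sc_star (c : C(unitInterval, ℝ)) : star (extb_sc B c) = extb_sc B c := by
  ext y
  have e : (star (extb_sc B c)) y = star (((c y : ℝ) : ℂ) • (1 : B)) := rfl
  rw [e, star_smul, star_one]
  have e2 : star ((c y : ℝ) : ℂ) = ((c y : ℝ) : ℂ) := Complex.conj_ofReal _
  rw [e2]
  rfl

theorem extb_center {κ : C(unitInterval, B) →ₗ[ℂ] ℂ} (h : IsExt κ) (c : C(unitInterval, ℝ))
    (h0 : ∀ y, 0 ≤ c y) (h1 : ∀ y, c y ≤ 1) (g : C(unitInterval, B)) :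
    κ (extb_sc B c * g) = κ (extb_sc B c) * κ g := by
  let w : C(unitInterval, ℝ) := ⟨fun y => √(c y), by fun_prop⟩
  let v : C(unitInterval, ℝ) := ⟨fun y => √(1 - c y), by fun_prop⟩
  refine h.center (z := extb_sc B c) (w := extb_sc B w) (v := extb_sc B v) ?_ ?_ ?_ g
  · intro a
    ext y
    simp
  · have e : w * w = c := by
      ext y
      exact Real.mul_self_sqrt (h0 y)
    rw [extb_sc_star, ← extb_sc_mul, e]
  · have e : v * v + c = 1 := by
      ext y
      have e1 : (v * v + c) y = √(1 - c y) * √(1 - c y) + c y := rfl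
      rw [e1, Real.mul_self_sqrt (sub_nonneg.2 (h1 y))]
      simp
    have e2 := extb_sc_add (B := B) (v * v) c
    rw [e, extb_sc_one] at e2
    rw [extb_sc_star, ← extb_sc_mul, e2, add_sub_cancel_right]

/-- Multiplicativity for all real scalar functions. -/
theorem extb_mul {κ : C(unitInterval, B) →ₗ[ℂ] ℂ} (h : IsExt κ) (c : C(unitInterval, ℝ))
    (g : C(unitInterval, B)) : κ (extb_sc B c * g) = κ (extb_sc B c) * κ g := by
  have hM : (0 : ℝ) < ‖c‖ + 1 := by positivity
  set M : ℝ := ‖c‖ + 1 with hMdef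
  let c' : C(unitInterval, ℝ) := (1 / (2 * M)) • (c + M • (1 : C(unitInterval, ℝ)))
  have hc' : ∀ y, c' y = (1 / (2 * M)) * (c y + M) := fun y => by
    have e : c' y = (1 / (2 * M)) * (c y + M * 1) := rfl
    rw [e, mul_one]
  have hb : ∀ y, |c y| ≤ ‖c‖ := fun y => by
    have := c.norm_coe_le_norm y
    rwa [Real.norm_eq_abs] at this
  have h0 : ∀ y, 0 ≤ c' y := fun y => by
    rw [hc']
    have := (abs_le.1 (hb y)).1
    have h2 : 0 ≤ c y + M := by linarith
    positivity
  have h1 : ∀ y, c' y ≤ 1 := fun y => by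
    rw [hc', one_div, inv_mul_le_iff₀ (by positivity), mul_one]
    have := (abs_le.1 (hb y)).2
    linarith
  have hcc : c + M • (1 : C(unitInterval, ℝ)) = (2 * M) • c' := by
    ext y
    have e : ((2 * M) • c') y = 2 * M * c' y := rfl
    have e' : (c + M • (1 : C(unitInterval, ℝ))) y = c y + M * 1 := rfl
    rw [e, e', hc']
    field_simp
  have hsc : extb_sc B c = ((2 * M : ℝ) : ℂ) • extb_sc B c' - ((M : ℝ) : ℂ) • 1 := by
    have e1 := extb_sc_add (B := B) c (M • (1 : C(unitInterval, ℝ)))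
    rw [hcc, extb_sc_smul (2 * M), extb_sc_smul M, extb_sc_one] at e1
    rw [e1, add_sub_cancel_right]
  have hcen := extb_center h c' h0 h1 g
  rw [hsc, sub_mul, smul_mul_assoc, smul_mul_assoc, one_mul, map_sub, map_sub, map_smul, map_smul,
    map_smul, map_smul, hcen, h.one]
  simp only [smul_eq_mul]
  ring

/-- Values on real scalar functions are real. -/
theorem extb_real {κ : C(unitInterval, B) →ₗ[ℂ] ℂ} (h : IsExt κ) (c : C(unitInterval, ℝ)) :
    κ (extb_sc B c) = (((κ (extb_sc B c)).re : ℝ) : ℂ) := by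
  have h1 := h.map_star (extb_sc B c)
  rw [extb_sc_star] at h1
  exact (Complex.conj_eq_iff_re.1 h1.symm).symm

/-- The character of the real scalar functions is the evaluation at a point. -/
theorem extb_eval {κ : C(unitInterval, B) →ₗ[ℂ] ℂ} (h : IsExt κ) :
    ∃ x : unitInterval, ∀ c : C(unitInterval, ℝ), κ (extb_sc B c) = ((c x : ℝ) : ℂ) := by
  have key : ∃ x : unitInterval, ∀ c : C(unitInterval, ℝ), (∀ y, 0 ≤ c y) →
      κ (extb_sc B c) = 0 → c x = 0 := by
    by_contra hcon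
    push Not at hcon
    choose c hc0 hck hcx using hcon
    obtain ⟨t, -, ht⟩ := (isCompact_univ (X := unitInterval)).elim_nhds_subcover
      (fun x => {y | 0 < c x y}) (fun x _ => by
        refine (isOpen_lt continuous_const (c x).continuous).mem_nhds ?_
        exact lt_of_le_of_ne (hc0 x x) (Ne.symm (hcx x)))
    let s : C(unitInterval, ℝ) := ∑ x ∈ t, c x
    have hs : ∀ y, 0 < s y := fun y => by
      obtain ⟨x, hx, hxy⟩ := Set.mem_iUnion₂.1 (ht (Set.mem_univ y))
      have e : s y = ∑ x ∈ t, c x y := by simp [s]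
      rw [e]
      exact Finset.sum_pos' (fun x _ => hc0 x y) ⟨x, hx, hxy⟩
    let s' : C(unitInterval, ℝ) := ⟨fun y => (s y)⁻¹, s.continuous.inv₀ fun y => (hs y).ne'⟩
    have h1 : s * s' = 1 := by
      ext y
      have : (s * s') y = s y * (s y)⁻¹ := rfl
      rw [this, mul_inv_cancel₀ (hs y).ne']
      rfl
    have h2 : κ (extb_sc B s) = 0 := by
      simp only [s, extb_sc_sum, map_sum]
      exact Finset.sum_eq_zero fun x _ => hck x
    have h3 := extb_mul h s (extb_sc B s')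
    rw [← extb_sc_mul, h1, extb_sc_one, h.one, h2, zero_mul] at h3
    exact one_ne_zero h3
  obtain ⟨x, hx⟩ := key
  refine ⟨x, fun c => ?_⟩
  set r : ℝ := (κ (extb_sc B c)).re with hr
  have hrc : κ (extb_sc B c) = (r : ℂ) := extb_real h c
  let d : C(unitInterval, ℝ) := c + (-r) • (1 : C(unitInterval, ℝ))
  have hd : κ (extb_sc B d) = 0 := by
    simp only [d]
    rw [extb_sc_add, extb_sc_smul, extb_sc_one, map_add, map_smul, h.one, hrc]
    simp
  have hdd : κ (extb_sc B (d * d)) = 0 := by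
    rw [extb_sc_mul, extb_mul h, hd, zero_mul]
  have h4 := hx (d * d) (fun y => mul_self_nonneg (d y)) hdd
  have h5 : d x = 0 := mul_self_eq_zero.1 h4
  have h6 : d x = c x - r := by
    simp [d, sub_eq_add_neg]
  rw [hrc]
  have h7 : c x = r := by linarith
  rw [h7]

theorem extb_vanish {κ : C(unitInterval, B) →ₗ[ℂ] ℂ} (h : IsExt κ) {x : unitInterval}
    (hx : ∀ c : C(unitInterval, ℝ), κ (extb_sc B c) = ((c x : ℝ) : ℂ))
    (g : C(unitInterval, B)) (hg : g x = 0) : κ g = 0 := by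
  have key : ∀ ε : ℝ, 0 < ε → ‖κ g‖ ≤ ε := by
    intro ε hε
    let c : C(unitInterval, ℝ) := ⟨fun y => max 0 (1 - ‖g y‖ / ε), by fun_prop⟩
    have hc : ∀ y, c y = max 0 (1 - ‖g y‖ / ε) := fun _ => rfl
    have hcx : c x = 1 := by
      rw [hc, hg]
      simp
    have h1 := extb_mul h c g
    rw [hx, hcx, Complex.ofReal_one, one_mul] at h1
    rw [← h1]
    refine (h.toIsTr.norm_le _).trans ?_
    rw [ContinuousMap.norm_le _ hε.le]
    intro y
    have h2 : (extb_sc B c * g) y = ((c y : ℝ) : ℂ) • g y := by simp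
    rw [h2, norm_smul, Complex.norm_real, Real.norm_eq_abs, hc]
    rcases le_or_gt (‖g y‖) ε with h3 | h3
    · have h4 : |max 0 (1 - ‖g y‖ / ε)| ≤ 1 := by
        rw [abs_of_nonneg (le_max_left _ _)]
        refine max_le zero_le_one ?_
        have : 0 ≤ ‖g y‖ / ε := by positivity
        linarith
      calc |max 0 (1 - ‖g y‖ / ε)| * ‖g y‖ ≤ 1 * ‖g y‖ :=
            mul_le_mul_of_nonneg_right h4 (norm_nonneg _)
        _ ≤ ε := by rw [one_mul]; exact h3
    · have h4 : max 0 (1 - ‖g y‖ / ε) = 0 := by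
        refine max_eq_left ?_
        have : 1 ≤ ‖g y‖ / ε := by
          rw [le_div_iff₀ hε]
          linarith
        linarith
      rw [h4]
      simpa using hε.le
  have h0 : ‖κ g‖ ≤ 0 := le_of_forall_pos_le_add fun ε hε => by
    rw [zero_add]
    exact key ε hε
  exact norm_le_zero_iff.1 h0

/-- **Extreme traces live at a point.** By `IsExt.center` for the central elements
`z = c ⊗ 1`, `0 ≤ c ≤ 1` continuous (`w = √c`, `v = √(1-c)`), `κ (c g) = κ c * κ g`.
So `c ↦ κ (c 1)` is a character of `C([0,1], ℝ)` (or `ℂ`), hence the evaluation at a point `x`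
(if for every `x` there were `c_x ≥ 0` with `c_x x > 0`, `κ c_x = 0`, compactness gives a sum
bounded below by `δ > 0` with `κ = 0`, a contradiction; so there is `x` such that `κ c = 0`
implies `c x = 0` for all `0 ≤ c ≤ 1`; apply this to `(c - κ c)² / 4`...). If `g x = 0` then for
`ε > 0` choose `c` with `c x = 1`, `‖c g‖ ≤ ε`: `κ g = κ c κ g = κ (c g)`, so `κ g = 0`. Then
`tr_of_vanish`; `σ b = κ (const b)`; `σ` is extreme since `σ = (σ' + σ'')/2` gives
`κ = (σ' ∘ ev_x + σ'' ∘ ev_x)/2`. -/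
theorem ext_point {κ : C(unitInterval, B) →ₗ[ℂ] ℂ} (h : IsExt κ) :
    ∃ (x : unitInterval) (σ : B →ₗ[ℂ] ℂ), IsExt σ ∧ κ = ptTr σ x := by
  obtain ⟨x, hx⟩ := extb_eval h
  have hv := fun g hg => extb_vanish h hx g hg
  have hk : κ = ptTr (κ ∘ₗ ((constC : B →⋆ₐ[ℂ] C(unitInterval, B)) :
      B →ₐ[ℂ] C(unitInterval, B)).toLinearMap) x := by
    ext g
    exact tr_of_vanish x hv g
  refine ⟨x, κ ∘ₗ ((constC : B →⋆ₐ[ℂ] C(unitInterval, B)) :
      B →ₐ[ℂ] C(unitInterval, B)).toLinearMap, ⟨h.toIsTr.comp constC, ?_⟩, hk⟩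
  intro τ₁ τ₂ h1 h2 h12
  have h3 := h.ext (ptTr τ₁ x) (ptTr τ₂ x) (h1.pt x) (h2.pt x) (fun g => by
    rw [ptTr_apply, ptTr_apply, ← h12 (g x)]
    exact tr_of_vanish x hv g)
  ext b
  have h4 := congrArg (fun f : C(unitInterval, B) →ₗ[ℂ] ℂ => f (constC b)) h3
  exact h4

end Pool.Agent.H.MP_e11395_an
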