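import Pool.Agent.H.MP_e11395_an.D.ExtA

/-!
# Extreme tracial states of `C([0,1], B)`
-/

set_option autoImplicit false
set_option linter.unusedSectionVars false

open Filter Topology

namespace Pool.Agent.H.MP_e11395_an

variable {B : Type} [CStarAlgebra B]

/-- If `σ ∘ ev_x = (κ' + κ'')/2` and `g x = 0` then
`‖κ' g‖² ≤ κ' (g⋆ g) ≤ 2 σ ((g⋆ g) x) = 0`, so `κ'` comes from the point `x`
(`tr_of_vanish`). -/
theorem IsExt.pt {σ : B →ₗ[ℂ] ℂ} (h : IsExt σ) (x : unitInterval) : IsExt (ptTr σ x) := by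
  refine { toIsTr := h.toIsTr.pt x, ext := ?_ }
  intro κ₁ κ₂ h₁ h₂ H
  have van : ∀ g : C(unitInterval, B), g x = 0 → κ₁ g = 0 := by
    intro g hg
    have e1 := H (star g * g)
    have e2 : ptTr σ x (star g * g) = 0 := by simp [hg]
    rw [e2] at e1
    have p1 := (Complex.le_def.1 (h₁.pos g)).1
    have p2 := (Complex.le_def.1 (h₂.pos g)).1
    have e3 : κ₁ (star g * g) + κ₂ (star g * g) = 0 := by
      have := e1.symm
      simpa using this
    have e4 := congrArg Complex.re e3
    simp only [Complex.add_re, Complex.zero_re] at e4 p1 p2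
    have e5 : (κ₁ (star g * g)).re = 0 := by linarith
    have e6 := h₁.cauchy g 1
    rw [e5, mul_zero, star_one, one_mul] at e6
    have e7 : ‖κ₁ g‖ = 0 := by
      have := norm_nonneg (κ₁ g)
      nlinarith
    exact norm_eq_zero.1 e7
  have key := h.ext _ _ (h₁.comp (constC : B →⋆ₐ[ℂ] C(unitInterval, B)))
    (h₂.comp (constC : B →⋆ₐ[ℂ] C(unitInterval, B))) fun b => H (constC b)
  refine LinearMap.ext fun g => ?_
  rw [tr_of_vanish x van g]
  exact congrArg (fun L : B →ₗ[ℂ] ℂ => L (g x)) key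

end Pool.Agent.H.MP_e11395_an
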