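import Pool.Agent.H.MP_e11395_an.D.KapA

/-!
# From traces of the limit to traces of `C([0,1], B)`
-/

set_option autoImplicit false
set_option linter.unusedSectionVars false

open Filter Topology
open scoped ComplexOrder

namespace Pool.Agent.H.MP_e11395_an

namespace TowerData

variable {d : ℕ → ℕ} {T : TowerData d} {B : Type} [CStarAlgebra B] {C : ConeAlg d B}
variable {A : Type} [CStarAlgebra A] {R : ∀ n, T.Bk B n →⋆ₐ[ℂ] A}

/-- A sequence with geometrically small steps. -/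
theorem kap_sum {a : ℕ → ℂ} {c : ℝ} (hc : 0 ≤ c)
    (h : ∀ n, ‖a (n + 1) - a n‖ ≤ 2 * (1 / 8 : ℝ) ^ (n + 1) * c) {n m : ℕ} (hnm : n ≤ m) :
    ‖a m - a n‖ ≤ (1 / 8 : ℝ) ^ n * c := by
  have key : ‖a m - a n‖ ≤ ((1 / 8 : ℝ) ^ n - (1 / 8 : ℝ) ^ m) * c := by
    induction m, hnm using Nat.le_induction with
    | base => simp
    | succ k hk ih =>
      have h2 : a (k + 1) - a n = (a (k + 1) - a k) + (a k - a n) := by ring
      rw [h2]
      refine (norm_add_le _ _).trans ((add_le_add (h k) ih).trans ?_)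
      rw [pow_succ]
      have h5 : (0 : ℝ) ≤ (1 / 8 : ℝ) ^ k * c := by positivity
      nlinarith
  refine key.trans (mul_le_mul_of_nonneg_right ?_ hc)
  have : (0 : ℝ) ≤ (1 / 8 : ℝ) ^ m := by positivity
  linarith

theorem kap_lim {a : ℕ → ℂ} {c : ℝ} (hc : 0 ≤ c)
    (h : ∀ n, ‖a (n + 1) - a n‖ ≤ 2 * (1 / 8 : ℝ) ^ (n + 1) * c) :
    ∃ l, Tendsto a atTop (𝓝 l) := by
  have h1 : CauchySeq a := by
    refine cauchySeq_of_le_geometric (1 / 8 : ℝ) c (by norm_num) fun n => ?_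
    rw [dist_comm, dist_eq_norm]
    refine (h n).trans ?_
    rw [pow_succ]
    have h5 : (0 : ℝ) ≤ (1 / 8 : ℝ) ^ n * c := by positivity
    nlinarith
  exact cauchySeq_tendsto_of_complete h1

theorem kap_nonneg {a : ℕ → ℂ} {l : ℂ} {U : Filter ℕ} [U.NeBot] (h : Tendsto a U (𝓝 l))
    (h0 : ∀ n, 0 ≤ a n) : 0 ≤ l := by
  have h1 : Tendsto (fun n => (a n).re) U (𝓝 l.re) := (Complex.continuous_re.tendsto l).comp h
  have h2 : Tendsto (fun n => (a n).im) U (𝓝 l.im) := (Complex.continuous_im.tendsto l).comp h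
  refine Complex.le_def.2 ⟨?_, ?_⟩
  · exact ge_of_tendsto' h1 fun n => (Complex.le_def.1 (h0 n)).1
  · have e : (fun n => (a n).im) = fun _ => (0 : ℝ) := by
      funext n
      exact ((Complex.le_def.1 (h0 n)).2).symm
    rw [e] at h2
    exact tendsto_nhds_unique tendsto_const_nhds h2

/-- The limit exists (Cauchy sequence), is linear and a tracial state (`cst n` and `R n` are
unital *-homomorphisms). -/
theorem exists_kap (lim : T.IsLimit C A R) {τ : A →ₗ[ℂ] ℂ} (h : IsTr τ) :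
    ∃ κ : C(unitInterval, B) →ₗ[ℂ] ℂ, IsTr κ ∧ T.IsKap R τ κ := by
  choose k hk using fun g : C(unitInterval, B) =>
    kap_lim (a := fun n => τ (R n (T.cst n g))) (norm_nonneg g)
      fun n => norm_kap_step lim h n g
  refine ⟨{ toFun := k, map_add' := fun f g => ?_, map_smul' := fun c g => ?_ }, ?_, hk⟩
  · refine tendsto_nhds_unique (hk (f + g)) (((hk f).add (hk g)).congr fun n => ?_)
    simp only [map_add]
  · refine tendsto_nhds_unique (hk (c • g)) (((hk g).const_mul c).congr fun n => ?_)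
    simp only [map_smul, smul_eq_mul]
  · refine ⟨?_, fun g => ?_, fun f g => ?_⟩
    · refine tendsto_nhds_unique (hk 1) ?_
      have e : (fun n => τ (R n (T.cst n 1))) = fun _ => (1 : ℂ) := by
        funext n
        rw [map_one, map_one, h.one]
      rw [e]
      exact tendsto_const_nhds
    · refine kap_nonneg (hk (star g * g)) fun n => ?_
      have := h.pos (R n (T.cst n g))
      rwa [← map_star, ← map_mul, ← map_star, ← map_mul] at this
    · refine tendsto_nhds_unique (hk (f * g)) ((hk (g * f)).congr fun n => ?_)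
      rw [map_mul, map_mul, h.comm, ← map_mul, ← map_mul]

theorem norm_sub_kap (lim : T.IsLimit C A R) {τ : A →ₗ[ℂ] ℂ} (h : IsTr τ)
    {κ : C(unitInterval, B) →ₗ[ℂ] ℂ} (hκ : T.IsKap R τ κ) (n : ℕ) (g : C(unitInterval, B)) :
    ‖κ g - τ (R n (T.cst n g))‖ ≤ (1 / 8 : ℝ) ^ n * ‖g‖ := by
  have h1 : Tendsto (fun m => ‖τ (R m (T.cst m g)) - τ (R n (T.cst n g))‖) atTop
      (𝓝 ‖κ g - τ (R n (T.cst n g))‖) := ((hκ g).sub_const _).norm
  refine le_of_tendsto h1 ?_
  filter_upwards [eventually_ge_atTop n] with m hm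
  exact kap_sum (a := fun n => τ (R n (T.cst n g))) (norm_nonneg g)
    (fun n => norm_kap_step lim h n g) hm

/-- **`τ` is determined by `κ`**: `τ (R n f) = τ (R (n+m) (iter m f))
= τ (R (n+m) (cst (trIt n m f)))` by `tr_avg`, and this differs from `κ (trIt n m f)` by at most
`8^-(n+m) ‖f‖`. -/
theorem kap_formula (lim : T.IsLimit C A R) {τ : A →ₗ[ℂ] ℂ} (h : IsTr τ)
    {κ : C(unitInterval, B) →ₗ[ℂ] ℂ} (hκ : T.IsKap R τ κ) (n : ℕ) (f : T.Bk B n) :
    Tendsto (fun m => κ (T.trIt C n m f)) atTop (𝓝 (τ (R n f))) := by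
  have h1 : ∀ m, ‖κ (T.trIt C n m f) - τ (R n f)‖ ≤ (1 / 8 : ℝ) ^ (n + m) * ‖f‖ := by
    intro m
    have h2 : τ (R n f) = τ (R (n + m) (T.cst (n + m) (T.trIt C n m f))) := by
      rw [← IsLimit.iter (T := T) lim n m f]
      exact T.tr_avg (n + m) (h.comp (R (n + m))) (T.iter C n m f)
    rw [h2]
    refine (norm_sub_kap lim h hκ (n + m) (T.trIt C n m f)).trans ?_
    exact mul_le_mul_of_nonneg_left (T.norm_trIt_le C n m f) (by positivity)
  rw [tendsto_iff_norm_sub_tendsto_zero]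
  refine squeeze_zero (fun m => norm_nonneg _) h1 ?_
  have h3 : Tendsto (fun m : ℕ => (1 / 8 : ℝ) ^ m) atTop (𝓝 0) :=
    tendsto_pow_atTop_nhds_zero_of_lt_one (by norm_num) (by norm_num)
  have h4 : Tendsto (fun m : ℕ => (1 / 8 : ℝ) ^ n * (1 / 8 : ℝ) ^ m * ‖f‖) atTop
      (𝓝 ((1 / 8 : ℝ) ^ n * 0 * ‖f‖)) := (h3.const_mul _).mul_const _
  rw [mul_zero, zero_mul] at h4
  refine h4.congr fun m => ?_
  rw [pow_add]

end TowerData

end Pool.Agent.H.MP_e11395_an
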