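import Pool.Agent.H.MP_e11395_an.D.Step
import Pool.Agent.H.MP_e11395_an.D.Avg

/-!
# From traces of the limit to traces of `C([0,1], B)`
-/

set_option autoImplicit false
set_option linter.unusedSectionVars false

open Filter Topology

namespace Pool.Agent.H.MP_e11395_an

namespace TowerData

variable {d : ℕ → ℕ} (T : TowerData d) {B : Type} [CStarAlgebra B] (C : ConeAlg d B)
variable {A : Type} [CStarAlgebra A] (R : ∀ n, T.Bk B n →⋆ₐ[ℂ] A)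

/-- `κ` is the limit of the restrictions of `τ` to the copies of `C([0,1], B)`. -/
def IsKap (τ : A →ₗ[ℂ] ℂ) (κ : C(unitInterval, B) →ₗ[ℂ] ℂ) : Prop :=
  ∀ g, Tendsto (fun n => τ (R n (T.cst n g))) atTop (𝓝 (κ g))

variable {T C R}

theorem IsKap.unique {τ : A →ₗ[ℂ] ℂ} {κ κ' : C(unitInterval, B) →ₗ[ℂ] ℂ}
    (h : T.IsKap R τ κ) (h' : T.IsKap R τ κ') : κ = κ' :=
  LinearMap.ext fun g => tendsto_nhds_unique (h g) (h' g)

/-- One step: `τ (R (n+1) (cst g)) - τ (R n (cst g)) = τ (R (n+1) (cst g - Φ (cst g)))`, which by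
`tr_avg` (for the trace `τ ∘ R (n+1)` of the block `n+1`) is
`τ (R (n+1) (cst (g - trOp (Φ (cst g)))))`; use `norm_trOp_sub` and `trOp (diaC g) = g`. -/
theorem norm_kap_step (lim : T.IsLimit C A R) {τ : A →ₗ[ℂ] ℂ} (h : IsTr τ) (n : ℕ)
    (g : C(unitInterval, B)) :
    ‖τ (R (n + 1) (T.cst (n + 1) g)) - τ (R n (T.cst n g))‖ ≤ 2 * (1 / 8 : ℝ) ^ (n + 1) * ‖g‖ := by
  have hne : Nonempty (Fin (T.r n)) := ⟨⟨0, T.r_pos n⟩⟩
  have hν := h.comp (R (n + 1))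
  obtain ⟨ν, hνdef⟩ : ∃ ν : T.Bk B (n + 1) →ₗ[ℂ] ℂ,
      ν = τ ∘ₗ ((R (n + 1) : T.Bk B (n + 1) →⋆ₐ[ℂ] A) : T.Bk B (n + 1) →ₐ[ℂ] A).toLinearMap :=
    ⟨_, rfl⟩
  rw [← hνdef] at hν
  have hνa : ∀ f, ν f = τ (R (n + 1) f) := fun f => by rw [hνdef]; rfl
  have e1 : τ (R (n + 1) (T.cst (n + 1) g)) = ν (T.cst (n + 1) g) := (hνa _).symm
  have e2 : τ (R n (T.cst n g)) = ν (T.cst (n + 1) (trOp (T.Φ C n (T.cst n g)).val)) := by
    rw [← lim.compat n (T.cst n g), ← hνa]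
    exact T.tr_avg (n + 1) hν (T.Φ C n (T.cst n g))
  rw [e1, e2, ← map_sub, ← map_sub]
  refine (hν.norm_le _).trans ((norm_starHom_le (T.cst (n + 1)) _).trans ?_)
  have h3 := T.norm_trOp_sub C n (T.cst n g)
  have h4 : trOp (T.cst n g).val = g := trOp_diaC g
  rw [h4] at h3
  rw [norm_sub_rev]
  refine h3.trans ?_
  exact mul_le_mul_of_nonneg_left (norm_starHom_le (T.cst n) g) (by positivity)

end TowerData

end Pool.Agent.H.MP_e11395_an
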