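import Pool.Agent.H.MP_e11395_an.D.Step

/-!
# From traces of `C([0,1], B)` to traces of the limit
-/

set_option autoImplicit false
set_option linter.unusedSectionVars false

open Filter Topology
open scoped ComplexOrder

namespace Pool.Agent.H.MP_e11395_an

namespace TowerData

variable {d : ℕ → ℕ} {T : TowerData d} {B : Type} [CStarAlgebra B] {C : ConeAlg d B}
variable {A : Type} [CStarAlgebra A] {R : ∀ n, T.Bk B n →⋆ₐ[ℂ] A}

/-- Choose for every `a : A` elements `F a n` of the blocks with `R n (F a n) → a` (by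
`IsLimit.approx`). -/
theorem exists_rep (lim : T.IsLimit C A R) :
    ∃ F : A → ∀ n, T.Bk B n, ∀ a, Tendsto (fun n => R n (F a n)) atTop (𝓝 a) := by
  have hb : ∀ (a : A) (n : ℕ), BddBelow (Set.range fun f : T.Bk B n => ‖R n f - a‖) := by
    intro a n
    refine ⟨0, ?_⟩
    rintro _ ⟨f, rfl⟩
    exact norm_nonneg _
  have h1 : ∀ (a : A) (n : ℕ), ∃ f : T.Bk B n,
      ‖R n f - a‖ < (⨅ f : T.Bk B n, ‖R n f - a‖) + 1 / ((n : ℝ) + 1) := by
    intro a n
    apply exists_lt_of_ciInf_lt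
    have : (0 : ℝ) < 1 / ((n : ℝ) + 1) := by positivity
    linarith
  choose F hF using h1
  refine ⟨F, fun a => ?_⟩
  rw [Metric.tendsto_atTop]
  intro ε hε
  obtain ⟨N, hN⟩ := IsLimit.approx (T := T) lim a (ε / 2) (by linarith)
  obtain ⟨M, hM⟩ := exists_nat_one_div_lt (show (0 : ℝ) < ε / 2 by linarith)
  refine ⟨max N M, fun n hn => ?_⟩
  obtain ⟨f, hf⟩ := hN n ((le_max_left _ _).trans hn)
  have h2 := ciInf_le (hb a n) f
  have h3 : 1 / ((n : ℝ) + 1) ≤ 1 / ((M : ℝ) + 1) := by
    apply one_div_le_one_div_of_le (by positivity)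
    have : (M : ℝ) ≤ n := by exact_mod_cast (le_max_right _ _).trans hn
    linarith
  rw [dist_eq_norm]
  have h4 := hF a n
  linarith

theorem lift_nonneg {a : ℕ → ℂ} {l : ℂ} {U : Filter ℕ} [U.NeBot] (h : Tendsto a U (𝓝 l))
    (h0 : ∀ n, 0 ≤ a n) : 0 ≤ l := by
  have h1 : Tendsto (fun n => (a n).re) U (𝓝 l.re) := (Complex.continuous_re.tendsto l).comp h
  have h2 : Tendsto (fun n => (a n).im) U (𝓝 l.im) := (Complex.continuous_im.tendsto l).comp h
  refine Complex.le_def.2 ⟨?_, ?_⟩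
  · exact ge_of_tendsto' h1 fun n => (Complex.le_def.1 (h0 n)).1
  · have e : (fun n => (a n).im) = fun _ => (0 : ℝ) := by
      funext n
      exact ((Complex.le_def.1 (h0 n)).2).symm
    rw [e] at h2
    exact tendsto_nhds_unique tendsto_const_nhds h2

theorem lift_bound {κ : C(unitInterval, B) →ₗ[ℂ] ℂ} (h : IsTr κ) {n : ℕ} (f : T.Bk B n) :
    ‖κ (trOp f.val)‖ ≤ ‖f‖ :=
  (h.norm_le _).trans (norm_trOp_le f.val)

theorem lift_ex (lim : T.IsLimit C A R) {κ : C(unitInterval, B) →ₗ[ℂ] ℂ} (h : IsTr κ)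
    {U : Ultrafilter ℕ} (hU : (U : Filter ℕ) ≤ atTop) {G : ∀ n, T.Bk B n} {a : A}
    (hG : Tendsto (fun n => R n (G n)) atTop (𝓝 a)) :
    ∃ l, Tendsto (fun n => κ (trOp (G n).val)) U (𝓝 l) := by
  have h1 : ∀ᶠ n in atTop, ‖R n (G n)‖ < ‖a‖ + 1 :=
    hG.norm.eventually (gt_mem_nhds (by linarith))
  have h2 : ∀ᶠ n in (U : Filter ℕ), κ (trOp (G n).val) ∈ Metric.closedBall (0 : ℂ) (‖a‖ + 1) := by
    refine hU ?_
    filter_upwards [h1] with n hn
    rw [mem_closedBall_zero_iff]
    rw [IsLimit.norm (T := T) lim] at hn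
    exact (lift_bound h (G n)).trans hn.le
  obtain ⟨l, -, hl⟩ := (isCompact_closedBall (0 : ℂ) (‖a‖ + 1)).ultrafilter_le_nhds
    (U.map fun n => κ (trOp (G n).val)) (by
      rw [Filter.le_principal_iff, Ultrafilter.coe_map, Filter.mem_map]
      exact h2)
  exact ⟨l, hl⟩

theorem lift_uniq (lim : T.IsLimit C A R) {κ : C(unitInterval, B) →ₗ[ℂ] ℂ} (h : IsTr κ)
    {U : Ultrafilter ℕ} (hU : (U : Filter ℕ) ≤ atTop) {G G' : ∀ n, T.Bk B n} {a : A} {l : ℂ}
    (hG : Tendsto (fun n => R n (G n)) atTop (𝓝 a))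
    (hG' : Tendsto (fun n => R n (G' n)) atTop (𝓝 a))
    (hl : Tendsto (fun n => κ (trOp (G n).val)) U (𝓝 l)) :
    Tendsto (fun n => κ (trOp (G' n).val)) U (𝓝 l) := by
  have h1 : Tendsto (fun n => R n (G' n - G n)) atTop (𝓝 0) := by
    have h2 := hG'.sub hG
    rw [sub_self] at h2
    refine h2.congr fun n => ?_
    rw [map_sub]
  have h3 : Tendsto (fun n => κ (trOp (G' n - G n).val)) atTop (𝓝 0) := by
    refine squeeze_zero_norm (fun n => ?_) (tendsto_zero_iff_norm_tendsto_zero.1 h1)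
    rw [IsLimit.norm (T := T) lim]
    exact lift_bound h _
  have h4 := hl.add (h3.mono_left hU)
  rw [add_zero] at h4
  refine h4.congr fun n => ?_
  rw [Bk.val_sub, map_sub, map_sub]
  ring

/-- The sequence of images of a fixed element. -/
theorem lift_seq (lim : T.IsLimit C A R) (κ : C(unitInterval, B) →ₗ[ℂ] ℂ) (n : ℕ)
    (f : T.Bk B n) : ∃ G : ∀ k, T.Bk B k, ∀ m, R (n + m) (G (n + m)) = R n f ∧
      κ (trOp (G (n + m)).val) = κ (T.trIt C n m f) := by
  have h : ∀ k, ∃ g : T.Bk B k, ∀ m, n + m = k → R k g = R n f ∧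
      κ (trOp g.val) = κ (T.trIt C n m f) := by
    intro k
    by_cases hk : n ≤ k
    · obtain ⟨m, rfl⟩ := Nat.exists_eq_add_of_le hk
      refine ⟨T.iter C n m f, fun m' hm' => ?_⟩
      obtain rfl : m' = m := by omega
      exact ⟨IsLimit.iter (T := T) lim n m' f, rfl⟩
    · exact ⟨0, fun m hm => absurd (by omega) hk⟩
  choose G hG using h
  exact ⟨G, fun m => hG (n + m) m rfl⟩

/-- **Lifting of traces.** Let `F` be as in `exists_rep` and let `U` be an ultrafilter on `ℕ`
finer than `atTop`. Define `τ a` as the `U`-limit of `κ (trOp (F a n))` (a bounded sequence: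
`|κ (trOp (F a n))| ≤ ‖F a n‖ = ‖R n (F a n)‖`). If `R n (G n) → a` for another choice `G n`,
then `‖F a n - G n‖ = ‖R n (F a n - G n)‖ → 0`, so `κ (trOp (G n))` has the same limit along
`U`. Hence `τ` is linear (`G = F a + F b`), `τ 1 = 1` (`G = 1`), `τ (a b) = τ (b a)`
(`G = F a * F b`, `G = F b * F a`, `IsTr.matC`), positive (`G = star (F a) * F a`), and
`τ (R n f) = lim_m κ (trIt n m f)` (`G (n+m) = iter n m f`; the limit along `atTop` exists since
the sequence is Cauchy by `norm_trIt_sub`, and equals the limit along `U`). -/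
theorem exists_lift (lim : T.IsLimit C A R) {κ : C(unitInterval, B) →ₗ[ℂ] ℂ} (h : IsTr κ) :
    ∃ τ : A →ₗ[ℂ] ℂ, IsTr τ ∧
      ∀ n (f : T.Bk B n), Tendsto (fun m => κ (T.trIt C n m f)) atTop (𝓝 (τ (R n f))) := by
  obtain ⟨F, hF⟩ := exists_rep lim
  have hU : ((Ultrafilter.of (atTop : Filter ℕ) : Ultrafilter ℕ) : Filter ℕ) ≤ atTop :=
    Ultrafilter.of_le atTop
  obtain ⟨U, hU⟩ : ∃ U : Ultrafilter ℕ, (U : Filter ℕ) ≤ atTop := ⟨_, hU⟩
  choose t ht using fun a => lift_ex lim h hU (hF a)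
  have key : ∀ (a : A) (G : ∀ n, T.Bk B n), Tendsto (fun n => R n (G n)) atTop (𝓝 a) →
      Tendsto (fun n => κ (trOp (G n).val)) U (𝓝 (t a)) := fun a G hG =>
    lift_uniq lim h hU (hF a) hG (ht a)
  have hne : ∀ n, Nonempty (Fin (T.r n)) := fun n => ⟨⟨0, T.r_pos n⟩⟩
  refine ⟨{ toFun := t, map_add' := fun a b => ?_, map_smul' := fun c a => ?_ },
    ⟨?_, fun a => ?_, fun a b => ?_⟩, fun n f => ?_⟩
  · refine tendsto_nhds_unique (key (a + b) (fun n => F a n + F b n) ?_)
      (((ht a).add (ht b)).congr fun n => ?_)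
    · refine ((hF a).add (hF b)).congr fun n => ?_
      rw [map_add]
    · rw [Bk.val_add, map_add, map_add]
  · refine tendsto_nhds_unique (key (c • a) (fun n => c • F a n) ?_)
      (((ht a).const_mul c).congr fun n => ?_)
    · refine ((hF a).const_smul c).congr fun n => ?_
      rw [map_smul]
    · rw [Bk.val_smul, map_smul, map_smul, smul_eq_mul]
  · refine tendsto_nhds_unique (key 1 (fun n => 1) ?_) ?_
    · have e : (fun n => R n 1) = fun _ => (1 : A) := by
        funext n
        rw [map_one]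
      rw [e]
      exact tendsto_const_nhds
    · have e : (fun n : ℕ => κ (trOp (1 : T.Bk B n).val)) = fun _ => (1 : ℂ) := by
        funext n
        have := hne n
        rw [Bk.val_one]
        exact (h.matC (ι := Fin (T.r n))).one
      rw [e]
      exact tendsto_const_nhds
  · refine lift_nonneg (key (star a * a) (fun n => star (F a n) * F a n) ?_) fun n => ?_
    · refine ((hF a).star.mul (hF a)).congr fun n => ?_
      rw [map_mul, map_star]
    · have := hne n
      rw [Bk.val_mul, Bk.val_star]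
      exact (h.matC (ι := Fin (T.r n))).pos _
  · refine tendsto_nhds_unique (key (a * b) (fun n => F a n * F b n) ?_)
      ((key (b * a) (fun n => F b n * F a n) ?_).congr fun n => ?_)
    · refine ((hF a).mul (hF b)).congr fun n => ?_
      rw [map_mul]
    · refine ((hF b).mul (hF a)).congr fun n => ?_
      rw [map_mul]
    · have := hne n
      rw [Bk.val_mul, Bk.val_mul]
      exact (h.matC (ι := Fin (T.r n))).comm _ _
  · have h1 : CauchySeq fun m => κ (T.trIt C n m f) := by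
      refine cauchySeq_of_le_geometric (1 / 8 : ℝ) ‖f‖ (by norm_num) fun m => ?_
      rw [dist_comm, dist_eq_norm, ← map_sub]
      refine (h.norm_le _).trans ((T.norm_trIt_sub C n (Nat.le_succ m) f).trans ?_)
      rw [mul_comm]
      refine mul_le_mul_of_nonneg_left ?_ (norm_nonneg _)
      exact pow_le_pow_of_le_one (by norm_num) (by norm_num) (Nat.le_add_left m n)
    obtain ⟨l, hl⟩ := cauchySeq_tendsto_of_complete h1
    obtain ⟨G, hG⟩ := lift_seq lim κ n f
    have h2 : Tendsto (fun k => R k (G k)) atTop (𝓝 (R n f)) := by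
      refine tendsto_const_nhds.congr' ?_
      filter_upwards [eventually_ge_atTop n] with k hk
      obtain ⟨m, rfl⟩ := Nat.exists_eq_add_of_le hk
      exact (hG m).1.symm
    have h3 : Tendsto (fun k => κ (trOp (G k).val)) atTop (𝓝 l) := by
      refine (hl.comp (tendsto_sub_atTop_nat n)).congr' ?_
      filter_upwards [eventually_ge_atTop n] with k hk
      obtain ⟨m, rfl⟩ := Nat.exists_eq_add_of_le hk
      rw [Function.comp_apply, Nat.add_sub_cancel_left]
      exact (hG m).2.symm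
    have h4 : l = t (R n f) := tendsto_nhds_unique (h3.mono_left hU) (key (R n f) G h2)
    rw [h4] at hl
    exact hl

/-- Tracial states which agree on the blocks are equal (density, `IsTr.norm_le`). -/
theorem tr_ext (lim : T.IsLimit C A R) {τ τ' : A →ₗ[ℂ] ℂ} (h : IsTr τ) (h' : IsTr τ')
    (H : ∀ n (f : T.Bk B n), τ (R n f) = τ' (R n f)) : τ = τ' := by
  refine LinearMap.ext fun a => ?_
  by_contra hne
  have hpos : 0 < ‖τ a - τ' a‖ := norm_pos_iff.2 (sub_ne_zero.2 hne)
  obtain ⟨n, f, hf⟩ := lim.dense a (‖τ a - τ' a‖ / 2) (by linarith)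
  have e : τ a - τ' a = τ' (R n f - a) - τ (R n f - a) := by
    rw [map_sub, map_sub, H n f]
    ring
  have h1 := norm_sub_le (τ' (R n f - a)) (τ (R n f - a))
  rw [← e] at h1
  have h2 := h.norm_le (R n f - a)
  have h3 := h'.norm_le (R n f - a)
  linarith

end TowerData

end Pool.Agent.H.MP_e11395_an
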