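import Pool.Agent.H.MP_e11395_an.D.Kap
import Pool.Agent.H.MP_e11395_an.D.Lift
import Pool.Agent.H.MP_e11395_an.D.ExtB
import Pool.Agent.H.MP_e11395_an.D.ExtC

/-!
# Extreme traces of the limit
-/

set_option autoImplicit false
set_option linter.unusedSectionVars false

open Filter Topology
open scoped ComplexOrder

namespace Pool.Agent.H.MP_e11395_an

namespace TowerData

variable {d : ℕ → ℕ} {T : TowerData d} {B : Type} [CStarAlgebra B] {C : ConeAlg d B}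
variable {A : Type} [CStarAlgebra A] {R : ∀ n, T.Bk B n →⋆ₐ[ℂ] A}

theorem _root_.Pool.Agent.H.MP_e11395_an.IsTr.half {A : Type} [Ring A] [StarRing A] [Algebra ℂ A]
    {τ₁ τ₂ : A →ₗ[ℂ] ℂ} (h₁ : IsTr τ₁) (h₂ : IsTr τ₂) : IsTr ((1 / 2 : ℂ) • (τ₁ + τ₂)) where
  one := by
    simp only [LinearMap.smul_apply, LinearMap.add_apply, h₁.one, h₂.one, smul_eq_mul]
    norm_num
  pos a := by
    have h3 : (0 : ℂ) ≤ 1 / 2 := by
      rw [Complex.le_def]; norm_num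
    exact mul_nonneg h3 (add_nonneg (h₁.pos a) (h₂.pos a))
  comm a b := by
    simp only [LinearMap.smul_apply, LinearMap.add_apply, h₁.comm a b, h₂.comm a b]

/-- A trace with the formula has the given `κ`: `τ (R n (cst g)) = lim_m κ (trIt n m (cst g))`
and `‖trIt n m (cst g) - g‖ ≤ 8^-n ‖g‖`. -/
theorem isKap_of_formula {τ : A →ₗ[ℂ] ℂ} {κ : C(unitInterval, B) →ₗ[ℂ] ℂ} (h : IsTr κ)
    (H : ∀ n (f : T.Bk B n), Tendsto (fun m => κ (T.trIt C n m f)) atTop (𝓝 (τ (R n f)))) :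
    T.IsKap R τ κ := by
  intro g
  have bd : ∀ n, ‖τ (R n (T.cst n g)) - κ g‖ ≤ (1 / 8 : ℝ) ^ n * ‖g‖ := by
    intro n
    have h1 : Tendsto (fun m => ‖κ (T.trIt C n m (T.cst n g)) - κ g‖) atTop
        (𝓝 ‖τ (R n (T.cst n g)) - κ g‖) := ((H n (T.cst n g)).sub_const _).norm
    refine le_of_tendsto' h1 fun m => ?_
    rw [← map_sub]
    refine (h.norm_le _).trans ?_
    have h2 := T.norm_trIt_sub C n (Nat.zero_le m) (T.cst n g)
    have h3 : T.trIt C n 0 (T.cst n g) = g := by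
      haveI : Nonempty (Fin (T.r n)) := ⟨⟨0, T.r_pos n⟩⟩
      exact trOp_diaC g
    rw [h3, add_zero] at h2
    exact h2.trans (mul_le_mul_of_nonneg_left (norm_diaC_le g) (by positivity))
  rw [tendsto_iff_norm_sub_tendsto_zero]
  refine squeeze_zero (fun n => norm_nonneg _) bd ?_
  have := (tendsto_pow_atTop_nhds_zero_of_lt_one (r := (1 / 8 : ℝ)) (by norm_num)
    (by norm_num)).mul_const ‖g‖
  simpa using this

/-- Two traces with the same `κ` are equal. -/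
theorem tr_eq_of_kap (lim : T.IsLimit C A R) {τ τ' : A →ₗ[ℂ] ℂ} (h : IsTr τ) (h' : IsTr τ')
    {κ : C(unitInterval, B) →ₗ[ℂ] ℂ} (hκ : T.IsKap R τ κ) (hκ' : T.IsKap R τ' κ) : τ = τ' :=
  tr_ext lim h h' fun n f =>
    tendsto_nhds_unique (kap_formula lim h hκ n f) (kap_formula lim h' hκ' n f)

/-- If `τ` is extreme, so is `κ`. -/
theorem ext_kap (lim : T.IsLimit C A R) {τ : A →ₗ[ℂ] ℂ} (h : IsExt τ)
    {κ : C(unitInterval, B) →ₗ[ℂ] ℂ} (hκ : T.IsKap R τ κ) (hκt : IsTr κ) : IsExt κ := by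
  refine { toIsTr := hκt, ext := ?_ }
  intro κ₁ κ₂ h₁ h₂ H
  obtain ⟨τ₁, t₁, f₁⟩ := exists_lift lim h₁
  obtain ⟨τ₂, t₂, f₂⟩ := exists_lift lim h₂
  have k₁ := isKap_of_formula (R := R) h₁ f₁
  have k₂ := isKap_of_formula (R := R) h₂ f₂
  have htot : IsTr ((1 / 2 : ℂ) • (τ₁ + τ₂)) := (t₁.half t₂)
  have e : τ = (1 / 2 : ℂ) • (τ₁ + τ₂) := by
    refine tr_eq_of_kap lim h.toIsTr htot hκ ?_
    intro g
    have h1 := ((k₁ g).add (k₂ g)).const_mul (1 / 2 : ℂ)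
    have h2 : κ g = (1 / 2 : ℂ) * (κ₁ g + κ₂ g) := by rw [H g]; ring
    rw [h2]
    exact h1
  have e2 := h.ext τ₁ τ₂ t₁ t₂ fun a => by
    conv_lhs => rw [e]
    simp only [LinearMap.smul_apply, LinearMap.add_apply, smul_eq_mul]
    ring
  rw [e2] at k₁
  exact k₁.unique hκ

/-- If `κ` is extreme, so is `τ`. -/
theorem ext_of_kap (lim : T.IsLimit C A R) {τ : A →ₗ[ℂ] ℂ} (h : IsTr τ)
    {κ : C(unitInterval, B) →ₗ[ℂ] ℂ} (hκ : T.IsKap R τ κ) (hκe : IsExt κ) : IsExt τ := by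
  refine { toIsTr := h, ext := ?_ }
  intro τ₁ τ₂ h₁ h₂ H
  obtain ⟨κ₁, t₁, k₁⟩ := exists_kap lim h₁
  obtain ⟨κ₂, t₂, k₂⟩ := exists_kap lim h₂
  have e2 := hκe.ext κ₁ κ₂ t₁ t₂ fun g => by
    refine tendsto_nhds_unique (hκ g) ?_
    have h1 := ((k₁ g).add (k₂ g)).div_const (2 : ℂ)
    refine h1.congr fun n => ?_
    exact (H _).symm
  rw [e2] at k₁
  exact tr_eq_of_kap lim h₁ h k₁ hκ

/-- **Extreme traces of the limit, I.** -/
theorem D_one (lim : T.IsLimit C A R) {τ : A →ₗ[ℂ] ℂ} (h : IsExt τ) :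
    ∃ (x : unitInterval) (σ : B →ₗ[ℂ] ℂ), IsExt σ ∧ ∀ n (f : T.Bk B n),
      Tendsto (fun m => σ (mtr ((T.iter C n m f).val x))) atTop (𝓝 (τ (R n f))) := by
  obtain ⟨κ, hκt, hκ⟩ := exists_kap lim h.toIsTr
  obtain ⟨x, σ, hσ, rfl⟩ := ext_point (ext_kap lim h hκ hκt)
  exact ⟨x, σ, hσ, fun n f => kap_formula lim h.toIsTr hκ n f⟩

/-- **Extreme traces of the limit, II.** -/
theorem D_two (lim : T.IsLimit C A R) (x : unitInterval) {σ : B →ₗ[ℂ] ℂ} (hσ : IsExt σ) :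
    ∃ τ : A →ₗ[ℂ] ℂ, IsExt τ ∧ ∀ n (f : T.Bk B n),
      Tendsto (fun m => σ (mtr ((T.iter C n m f).val x))) atTop (𝓝 (τ (R n f))) := by
  obtain ⟨τ, hτ, H⟩ := exists_lift lim (hσ.pt x).toIsTr
  exact ⟨τ, ext_of_kap lim hτ (isKap_of_formula (hσ.pt x).toIsTr H) (hσ.pt x), H⟩

end TowerData

section op

variable {A : Type} [CStarAlgebra A]

/-- Transport of a functional along `A ≃ Aᵐᵒᵖ`. -/
noncomputable def opTr (Φ : A ≃⋆ₐ[ℂ] Aᵐᵒᵖ) (τ : A →ₗ[ℂ] ℂ) : A →ₗ[ℂ] ℂ where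
  toFun a := τ (MulOpposite.unop (Φ a))
  map_add' a b := by simp
  map_smul' c a := by simp

@[simp] theorem opTr_apply (Φ : A ≃⋆ₐ[ℂ] Aᵐᵒᵖ) (τ : A →ₗ[ℂ] ℂ) (a : A) :
    opTr Φ τ a = τ (MulOpposite.unop (Φ a)) := rfl

theorem IsTr.op {τ : A →ₗ[ℂ] ℂ} (h : IsTr τ) (Φ : A ≃⋆ₐ[ℂ] Aᵐᵒᵖ) : IsTr (opTr Φ τ) where
  one := by simp [h.one]
  pos a := by
    have h1 := h.pos (star (MulOpposite.unop (Φ a)))
    rw [star_star] at h1
    have h2 : opTr Φ τ (star a * a) = τ (MulOpposite.unop (Φ a) * star (MulOpposite.unop (Φ a))) := by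
      have h3 : Φ (star a) = star (Φ a) := StarHomClass.map_star Φ a
      rw [opTr_apply, map_mul, MulOpposite.unop_mul, h3, MulOpposite.unop_star]
    rw [h2]
    exact h1
  comm a b := by
    simp only [opTr_apply, map_mul, MulOpposite.unop_mul]
    exact h.comm _ _

/-- Transport of a functional along the inverse of `A ≃ Aᵐᵒᵖ`. -/
noncomputable def opInv (Φ : A ≃⋆ₐ[ℂ] Aᵐᵒᵖ) (τ : A →ₗ[ℂ] ℂ) : A →ₗ[ℂ] ℂ where
  toFun a := τ (Φ.symm (MulOpposite.op a))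
  map_add' a b := by simp
  map_smul' c a := by simp

@[simp] theorem opInv_apply (Φ : A ≃⋆ₐ[ℂ] Aᵐᵒᵖ) (τ : A →ₗ[ℂ] ℂ) (a : A) :
    opInv Φ τ a = τ (Φ.symm (MulOpposite.op a)) := rfl

theorem IsTr.opInv {τ : A →ₗ[ℂ] ℂ} (h : IsTr τ) (Φ : A ≃⋆ₐ[ℂ] Aᵐᵒᵖ) :
    IsTr (opInv Φ τ) where
  one := by simp [h.one]
  pos a := by
    have h1 := h.pos (star (Φ.symm (MulOpposite.op a)))
    rw [star_star] at h1
    have h2 : Pool.Agent.H.MP_e11395_an.opInv Φ τ (star a * a) =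
        τ (Φ.symm (MulOpposite.op a) * star (Φ.symm (MulOpposite.op a))) := by
      have h3 : Φ.symm (MulOpposite.op (star a)) = star (Φ.symm (MulOpposite.op a)) := by
        rw [MulOpposite.op_star]
        exact StarHomClass.map_star Φ.symm (MulOpposite.op a)
      rw [opInv_apply, MulOpposite.op_mul, map_mul, h3]
    rw [h2]
    exact h1
  comm a b := by
    simp only [opInv_apply, map_mul, MulOpposite.op_mul]
    exact h.comm _ _

/-- **Extreme traces are preserved by isomorphisms with the opposite algebra**: if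
`opTr Φ τ = (τ' + τ'')/2` then `τ = (τ' ∘ Φ⁻¹ ∘ op + τ'' ∘ Φ⁻¹ ∘ op)/2`. -/
theorem IsExt.op {τ : A →ₗ[ℂ] ℂ} (h : IsExt τ) (Φ : A ≃⋆ₐ[ℂ] Aᵐᵒᵖ) : IsExt (opTr Φ τ) := by
  refine { toIsTr := h.toIsTr.op Φ, ext := ?_ }
  intro τ₁ τ₂ h₁ h₂ H
  -- the inverse isomorphism, as an isomorphism `A ≃ Aᵐᵒᵖ`
  have key := h.ext (opInv Φ τ₁) (opInv Φ τ₂) (h₁.opInv Φ) (h₂.opInv Φ) fun a => by
    have := H (Φ.symm (MulOpposite.op a))
    simpa using this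
  refine LinearMap.ext fun a => ?_
  have h3 := congrArg (fun L : A →ₗ[ℂ] ℂ => L (MulOpposite.unop (Φ a))) key
  simpa using h3

end op

end Pool.Agent.H.MP_e11395_an
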