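import Pool.Agent.H.MP_e11395_an.D.StepB

/-!
# Iterated connecting maps
-/

set_option autoImplicit false
set_option linter.unusedSectionVars false

open Filter Topology

namespace Pool.Agent.H.MP_e11395_an

namespace TowerData

variable {d : ℕ → ℕ} (T : TowerData d) {B : Type} [CStarAlgebra B] (C : ConeAlg d B)

/-- The iterated connecting maps. -/
noncomputable def iter (n : ℕ) : ∀ m, T.Bk B n →⋆ₐ[ℂ] T.Bk B (n + m)
  | 0 => StarAlgHom.id ℂ _
  | m + 1 => (T.Φ C (n + m)).comp (iter n m)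

@[simp] theorem iter_zero (n : ℕ) (f : T.Bk B n) : T.iter C n 0 f = f := rfl

@[simp] theorem iter_succ (n m : ℕ) (f : T.Bk B n) :
    T.iter C n (m + 1) f = T.Φ C (n + m) (T.iter C n m f) := rfl

theorem norm_iter_le (n m : ℕ) (f : T.Bk B n) : ‖T.iter C n m f‖ ≤ ‖f‖ :=
  NonUnitalStarAlgHom.norm_apply_le (T.iter C n m) f

/-- The normalised trace of the image of `f` at stage `n + m`. -/
noncomputable def trIt (n m : ℕ) (f : T.Bk B n) : C(unitInterval, B) :=
  trOp (T.iter C n m f).val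

theorem norm_trIt_le (n m : ℕ) (f : T.Bk B n) : ‖T.trIt C n m f‖ ≤ ‖f‖ :=
  (norm_trOp_le _).trans (T.norm_iter_le C n m f)

/-- `Σ_{j ≥ n} 2 · 8^-(j+1) = (2/7) 8^-n ≤ 8^-n`. -/
theorem norm_trIt_sub (n : ℕ) {m m' : ℕ} (h : m ≤ m') (f : T.Bk B n) :
    ‖T.trIt C n m' f - T.trIt C n m f‖ ≤ (1 / 8 : ℝ) ^ (n + m) * ‖f‖ := by
  have key : ‖T.trIt C n m' f - T.trIt C n m f‖ ≤
      ((1 / 8 : ℝ) ^ (n + m) - (1 / 8 : ℝ) ^ (n + m')) * ‖f‖ := by
    induction m', h using Nat.le_induction with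
    | base => simp
    | succ k hk ih =>
      have h1 : ‖T.trIt C n (k + 1) f - T.trIt C n k f‖ ≤ 2 * (1 / 8 : ℝ) ^ (n + k + 1) * ‖f‖ := by
        refine (T.norm_trOp_sub C (n + k) (T.iter C n k f)).trans ?_
        exact mul_le_mul_of_nonneg_left (T.norm_iter_le C n k f) (by positivity)
      have h2 : T.trIt C n (k + 1) f - T.trIt C n m f =
          (T.trIt C n (k + 1) f - T.trIt C n k f) + (T.trIt C n k f - T.trIt C n m f) := by abel
      rw [h2]
      refine (norm_add_le _ _).trans ((add_le_add h1 ih).trans ?_)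
      have h3 : (1 / 8 : ℝ) ^ (n + (k + 1)) = (1 / 8 : ℝ) ^ (n + k) * (1 / 8) := by
        rw [← add_assoc, pow_succ]
      have h4 : (1 / 8 : ℝ) ^ (n + k + 1) = (1 / 8 : ℝ) ^ (n + k) * (1 / 8) := pow_succ _ _
      rw [h3, h4]
      have h5 : (0 : ℝ) ≤ (1 / 8 : ℝ) ^ (n + k) * ‖f‖ := by positivity
      nlinarith
  refine key.trans (mul_le_mul_of_nonneg_right ?_ (norm_nonneg _))
  have : (0 : ℝ) ≤ (1 / 8 : ℝ) ^ (n + m') := by positivity
  linarith

variable {C} {A : Type} [CStarAlgebra A] {R : ∀ n, T.Bk B n →⋆ₐ[ℂ] A}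

theorem IsLimit.iter (lim : T.IsLimit C A R) (n m : ℕ) (f : T.Bk B n) :
    R (n + m) (T.iter C n m f) = R n f := by
  induction m with
  | zero => rfl
  | succ m ih =>
    rw [iter_succ, ← ih]
    exact lim.compat (n + m) (T.iter C n m f)

/-- Approximation at every late stage (from `dense` by `iter`). -/
theorem IsLimit.approx (lim : T.IsLimit C A R) (a : A) (ε : ℝ) (hε : 0 < ε) :
    ∃ N, ∀ n ≥ N, ∃ f, ‖R n f - a‖ < ε := by
  obtain ⟨N, f, hf⟩ := lim.dense a ε hε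
  refine ⟨N, fun n hn => ?_⟩
  obtain ⟨m, rfl⟩ := Nat.exists_eq_add_of_le hn
  exact ⟨T.iter C N m f, by rw [lim.iter]; exact hf⟩

/-- An injective *-homomorphism is isometric. -/
theorem IsLimit.norm (lim : T.IsLimit C A R) (n : ℕ) (f : T.Bk B n) : ‖R n f‖ = ‖f‖ :=
  NonUnitalStarAlgHom.norm_map (R n) (lim.inj n) f

end TowerData

end Pool.Agent.H.MP_e11395_an
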