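import Pool.Agent.H.MP_e11395_an.D.AvgA

/-!
# The connecting maps almost preserve the normalised trace
-/

set_option autoImplicit false
set_option linter.unusedSectionVars false

open Filter Topology

namespace Pool.Agent.H.MP_e11395_an

section

variable {B : Type} [CStarAlgebra B] {ι : Type} [Fintype ι] [DecidableEq ι]

/-- The sum of the diagonal entries of a slot matrix. -/
theorem sum_slot (m a b : ℕ) {d : ℕ} (M₀ : Mt ι B) (M₁ M₂ : Mt (Fin d × ι) B) :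
    ∑ i, slot m a b M₀ M₁ M₂ i i = (m : ℂ) • ∑ i, M₀ i i + (a : ℂ) • ∑ i, M₁ i i +
      (b : ℂ) • ∑ i, M₂ i i := by
  rw [Fintype.sum_sum_type, Fintype.sum_sum_type, ← add_assoc]
  congr 1
  · congr 1
    · rw [Fintype.sum_prod_type]
      simp only [Slot_aa, if_true]
      rw [Finset.sum_const, Finset.card_univ, Fintype.card_fin, Nat.cast_smul_eq_nsmul]
    · rw [Fintype.sum_prod_type]
      simp only [Slot_bb, if_true]
      rw [Finset.sum_const, Finset.card_univ, Fintype.card_fin, Nat.cast_smul_eq_nsmul]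
  · rw [Fintype.sum_prod_type]
    simp only [Slot_cc, if_true]
    rw [Finset.sum_const, Finset.card_univ, Fintype.card_fin, Nat.cast_smul_eq_nsmul]

/-- A unital *-homomorphism of C*-algebras is contractive (Mathlib). -/
theorem norm_starHom_le {A A' : Type} [CStarAlgebra A] [CStarAlgebra A'] (φ : A →⋆ₐ[ℂ] A')
    (a : A) : ‖φ a‖ ≤ ‖a‖ :=
  NonUnitalStarAlgHom.norm_apply_le φ a

theorem norm_cpath_le {d₀ : ℕ → ℕ} (C : ConeAlg d₀ B) (k : ℕ) (ξ x : unitInterval)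
    (f : C(unitInterval, Mt ι B)) : ‖cpath C k ξ x f‖ ≤ ‖f‖ := by
  unfold cpath
  split_ifs
  · refine (norm_starHom_le (dAmp (d₀ k)) _).trans ((norm_starHom_le (Mt.map _) _).trans ?_)
    exact f.norm_coe_le_norm _
  · refine (norm_starHom_le (piAmp (C.π k)) _).trans ((norm_starHom_le (Mt.map _) _).trans ?_)
    exact f.norm_coe_le_norm _

end

namespace TowerData

variable {d : ℕ → ℕ} (T : TowerData d) {B : Type} [CStarAlgebra B] (C : ConeAlg d B)

/-- `d p_{n+1} / (k₀ k₁) = d p_n / k₁ ≤ 8^-(n+1)`. -/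
theorem frac_le (n : ℕ) : (d (T.sel n) * T.p (n + 1) : ℝ) / (T.k₀ n * T.k₁ n) ≤
    (1 / 8 : ℝ) ^ (n + 1) := by
  have hp := T.p_pos (n + 1)
  have hq := T.q_pos (n + 1)
  have hs := T.small₁ n
  rw [T.p_succ] at hp ⊢
  rw [T.q_succ] at hq
  have hk0 : 0 < T.k₀ n := Nat.pos_of_mul_pos_right hp
  have hk1 : 0 < T.k₁ n := Nat.pos_of_mul_pos_right hq
  have hk0' : (0 : ℝ) < T.k₀ n := by exact_mod_cast hk0
  have hk1' : (0 : ℝ) < T.k₁ n := by exact_mod_cast hk1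
  rw [div_le_iff₀ (mul_pos hk0' hk1')]
  push_cast
  calc (d (T.sel n) : ℝ) * ((T.k₀ n : ℝ) * (T.p n : ℝ))
      = ((d (T.sel n) : ℝ) * (T.p n : ℝ)) * (T.k₀ n : ℝ) := by ring
    _ ≤ ((1 / 8 : ℝ) ^ (n + 1) * (T.k₁ n : ℝ)) * (T.k₀ n : ℝ) :=
        mul_le_mul_of_nonneg_right hs hk0'.le
    _ = (1 / 8 : ℝ) ^ (n + 1) * ((T.k₀ n : ℝ) * (T.k₁ n : ℝ)) := by ring

end TowerData

end Pool.Agent.H.MP_e11395_an
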