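import Pool.Agent.H.MP_e11395_an.D.StepA

/-!
# The connecting maps almost preserve the normalised trace
-/

set_option autoImplicit false
set_option linter.unusedSectionVars false

open Filter Topology

namespace Pool.Agent.H.MP_e11395_an

section

variable {B : Type} [CStarAlgebra B] {ι : Type} [Fintype ι] [DecidableEq ι]

theorem stepb_card_smul (M : Mt ι B) : (Fintype.card ι : ℂ) • mtr M = ∑ i, M i i := by
  rw [mtr_apply, smul_smul]
  rcases eq_or_ne (Fintype.card ι : ℂ) 0 with h | h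
  · have h1 : Fintype.card ι = 0 := by exact_mod_cast h
    have h2 : IsEmpty ι := Fintype.card_eq_zero_iff.1 h1
    simp
  · rw [mul_one_div_cancel h, one_smul]

theorem stepb_slot (m a b : ℕ) {d : ℕ} (M₀ : Mt ι B) (M₁ M₂ : Mt (Fin d × ι) B) :
    (Fintype.card (SlotIdx m a b d ι) : ℂ) • mtr (slot m a b M₀ M₁ M₂) =
      ((m : ℂ) * Fintype.card ι) • mtr M₀ + ((a : ℂ) * (d * Fintype.card ι)) • mtr M₁ +
      ((b : ℂ) * (d * Fintype.card ι)) • mtr M₂ := by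
  have h1 : (Fintype.card (Fin d × ι) : ℂ) = d * Fintype.card ι := by
    rw [Fintype.card_prod, Fintype.card_fin]; push_cast; ring
  rw [stepb_card_smul, sum_slot, ← stepb_card_smul, ← stepb_card_smul, ← stepb_card_smul, h1,
    smul_smul, smul_smul, smul_smul]

end

namespace TowerData

variable {d : ℕ → ℕ} (T : TowerData d) {B : Type} [CStarAlgebra B] (C : ConeAlg d B)

/-- With `λ = m/(k₀ k₁)` and `r (n+1) = k₀ k₁ r n`, `m + d p' = k₀ k₁`:
`mtr (Φ f x) = λ mtr (f x) + (q' d / (k₀ k₁)) mtr (piAmp ..) + ((p'-q') d / (k₀ k₁)) mtr (cpath ..)`,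
so the difference is `(1 - λ)` times a vector of norm at most `2 ‖f‖`. -/
theorem norm_trOp_sub (n : ℕ) (f : T.Bk B n) :
    ‖trOp (T.Φ C n f).val - trOp f.val‖ ≤ 2 * (1 / 8 : ℝ) ^ (n + 1) * ‖f‖ := by
  have hp := T.p_pos (n + 1)
  have hq := T.q_pos (n + 1)
  have hr := T.r_pos n
  have hlt := T.q_lt_p n
  have hfr := T.frac_le n
  have hK0 : 0 < T.k₀ n := by
    rw [T.p_succ] at hp
    exact Nat.pos_of_mul_pos_right hp
  have hK1 : 0 < T.k₁ n := by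
    rw [T.q_succ] at hq
    exact Nat.pos_of_mul_pos_right hq
  have hK : (0 : ℝ) < (T.k₀ n : ℝ) * T.k₁ n := by positivity
  have hrR : (0 : ℝ) < (T.r n : ℝ) := by exact_mod_cast hr
  have hbd : (0 : ℝ) ≤ 2 * (1 / 8 : ℝ) ^ (n + 1) * ‖f‖ := by positivity
  rw [ContinuousMap.norm_le _ hbd]
  intro x
  have hΦ : (T.Φ C n f).val x = Mt.reindex (T.E n) (slot (T.m n) (T.q (n + 1))
      (T.p (n + 1) - T.q (n + 1)) (f.val x) (piAmp (C.π (T.sel n)) (f.val (T.ξ n)))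
      (cpath C (T.sel n) (T.ξ n) x f.val)) := rfl
  rw [ContinuousMap.sub_apply, trOp_apply, trOp_apply, hΦ, mtr_reindex]
  set M₀ : Mt (Fin (T.r n)) B := f.val x with hM0
  set M₁ : Mt (Fin (d (T.sel n)) × Fin (T.r n)) B := piAmp (C.π (T.sel n)) (f.val (T.ξ n)) with hM1
  set M₂ : Mt (Fin (d (T.sel n)) × Fin (T.r n)) B := cpath C (T.sel n) (T.ξ n) x f.val with hM2
  have n0 : ‖mtr M₀‖ ≤ ‖f‖ := (norm_mtr_le _).trans (f.val.norm_coe_le_norm x)
  have n1 : ‖mtr M₁‖ ≤ ‖f‖ := (norm_mtr_le _).trans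
    ((norm_starHom_le (piAmp (C.π (T.sel n))) _).trans (f.val.norm_coe_le_norm _))
  have n2 : ‖mtr M₂‖ ≤ ‖f‖ := (norm_mtr_le _).trans (norm_cpath_le C _ _ _ _)
  have key := stepb_slot (T.m n) (T.q (n + 1)) (T.p (n + 1) - T.q (n + 1)) M₀ M₁ M₂
  have hcard : (Fintype.card (SlotIdx (T.m n) (T.q (n + 1)) (T.p (n + 1) - T.q (n + 1))
      (d (T.sel n)) (Fin (T.r n))) : ℕ) = T.k₀ n * T.k₁ n * T.r n := by
    rw [Fintype.card_congr (T.E n), Fintype.card_fin, T.p_succ, T.q_succ]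
    show T.k₀ n * T.p n * (T.k₁ n * T.q n) = T.k₀ n * T.k₁ n * (T.p n * T.q n)
    ring
  rw [hcard, Fintype.card_fin] at key
  set V := mtr (slot (T.m n) (T.q (n + 1)) (T.p (n + 1) - T.q (n + 1)) M₀ M₁ M₂) with hV
  have hmK : (T.m n : ℂ) = (T.k₀ n : ℂ) * T.k₁ n - (d (T.sel n) : ℂ) * T.p (n + 1) := by
    have := T.m_eq n
    rw [eq_sub_iff_add_eq]
    exact_mod_cast this
  have hdiff : (((T.k₀ n : ℂ) * T.k₁ n) * T.r n) • (V - mtr M₀) =
      (-((d (T.sel n) : ℂ) * T.p (n + 1) * T.r n)) • mtr M₀ +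
      ((T.q (n + 1) : ℂ) * (d (T.sel n) * T.r n)) • mtr M₁ +
      (((T.p (n + 1) - T.q (n + 1) : ℕ) : ℂ) * (d (T.sel n) * T.r n)) • mtr M₂ := by
    have key' : (((T.k₀ n : ℂ) * T.k₁ n) * T.r n) • V = ((T.m n : ℂ) * T.r n) • mtr M₀ +
        ((T.q (n + 1) : ℂ) * (d (T.sel n) * T.r n)) • mtr M₁ +
        (((T.p (n + 1) - T.q (n + 1) : ℕ) : ℂ) * (d (T.sel n) * T.r n)) • mtr M₂ := by
      rw [← key]
      congr 1
      push_cast
      ring
    rw [smul_sub, key', hmK]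
    have e1 : ((((T.k₀ n : ℂ) * T.k₁ n) - (d (T.sel n) : ℂ) * T.p (n + 1)) * T.r n) =
        ((T.k₀ n : ℂ) * T.k₁ n) * T.r n + -((d (T.sel n) : ℂ) * T.p (n + 1) * T.r n) := by ring
    rw [e1, add_smul]
    abel
  have hnorm : ((T.k₀ n : ℝ) * T.k₁ n * T.r n) * ‖V - mtr M₀‖ ≤
      (2 * (d (T.sel n) * T.p (n + 1) * T.r n)) * ‖f‖ := by
    have h1 : ‖(((T.k₀ n : ℂ) * T.k₁ n) * T.r n) • (V - mtr M₀)‖ =
        ((T.k₀ n : ℝ) * T.k₁ n * T.r n) * ‖V - mtr M₀‖ := by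
      rw [norm_smul, norm_mul, norm_mul, Complex.norm_natCast, Complex.norm_natCast,
        Complex.norm_natCast]
    rw [← h1, hdiff]
    have h2 : ‖(-((d (T.sel n) : ℂ) * T.p (n + 1) * T.r n)) • mtr M₀‖ ≤
        ((d (T.sel n) : ℝ) * T.p (n + 1) * T.r n) * ‖f‖ := by
      rw [norm_smul, norm_neg, norm_mul, norm_mul, Complex.norm_natCast, Complex.norm_natCast,
        Complex.norm_natCast]
      exact mul_le_mul_of_nonneg_left n0 (by positivity)
    have h3 : ‖((T.q (n + 1) : ℂ) * (d (T.sel n) * T.r n)) • mtr M₁‖ ≤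
        ((T.q (n + 1) : ℝ) * (d (T.sel n) * T.r n)) * ‖f‖ := by
      rw [norm_smul, norm_mul, norm_mul, Complex.norm_natCast, Complex.norm_natCast,
        Complex.norm_natCast]
      exact mul_le_mul_of_nonneg_left n1 (by positivity)
    have h4 : ‖(((T.p (n + 1) - T.q (n + 1) : ℕ) : ℂ) * (d (T.sel n) * T.r n)) • mtr M₂‖ ≤
        (((T.p (n + 1) - T.q (n + 1) : ℕ) : ℝ) * (d (T.sel n) * T.r n)) * ‖f‖ := by
      rw [norm_smul, norm_mul, norm_mul, Complex.norm_natCast, Complex.norm_natCast,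
        Complex.norm_natCast]
      exact mul_le_mul_of_nonneg_left n2 (by positivity)
    refine (norm_add_le _ _).trans ((add_le_add ((norm_add_le _ _).trans (add_le_add h2 h3)) h4).trans ?_)
    rw [Nat.cast_sub hlt.le]
    apply le_of_eq
    ring
  have hKr : (0 : ℝ) < (T.k₀ n : ℝ) * T.k₁ n * T.r n := by positivity
  rw [mul_comm, ← le_div_iff₀ hKr] at hnorm
  refine hnorm.trans ?_
  have e2 : (2 * ((d (T.sel n) : ℝ) * T.p (n + 1) * T.r n)) * ‖f‖ /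
      ((T.k₀ n : ℝ) * T.k₁ n * T.r n) =
      2 * ((d (T.sel n) : ℝ) * T.p (n + 1) / ((T.k₀ n : ℝ) * T.k₁ n)) * ‖f‖ := by
    field_simp
  rw [e2]
  refine mul_le_mul_of_nonneg_right ?_ (norm_nonneg _)
  linarith

end TowerData

end Pool.Agent.H.MP_e11395_an
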